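import Pool.Agent.Q20.Kf.Cox
import Pool.Agent.Y112.KD.Zip

/-!
# The action of the symmetric group on tensor powers and Schur finiteness
-/

set_option autoImplicit false
set_option linter.unusedSectionVars false
set_option linter.unusedSimpArgs false
set_option backward.isDefEq.respectTransparency false
set_option backward.defeqAttrib.useBackward true

open CategoryTheory Limits MonoidalCategory
open Pool.Agent.Y112.SR Pool.Agent.Y112.KD
open Pool.Agent.Y116.MT (tr)

namespace Pool.Agent.Q20.Kf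

universe v u

section

variable {C : Type u} [Category.{v} C] [MonoidalCategory C] [SymmetricCategory C]

/-- The exchange of the factors number `i` and `i + 1` (counted from zero) of the tensor power
`X ^ (n + 1)`, for `i < n`. -/
def exch (X : C) : ∀ n : ℕ, ℕ → (tp X (n + 1) ⟶ tp X (n + 1))
  | 0, _ => 𝟙 _
  | n + 1, i => if i = n then sw (tp X n) X else exch X n i ▷ X

lemma exch_last (X : C) (n : ℕ) : exch X (n + 1) n = sw (tp X n) X := if_pos rfl

lemma exch_lift (X : C) (n i : ℕ) (h : i ≠ n) : exch X (n + 1) i = exch X n i ▷ X := if_neg h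

lemma exch_sq (X : C) (n i : ℕ) : exch X n i ≫ exch X n i = 𝟙 _ := by
  induction n with
  | zero => exact Category.id_comp _
  | succ n ih =>
    by_cases h : i = n
    · subst h
      rw [exch_last, sw_sw]
    · rw [exch_lift X n i h, ← comp_whiskerRight, ih, id_whiskerRight]

lemma exch_braid (X : C) (n i : ℕ) (h : i + 1 < n) :
    exch X n i ≫ exch X n (i + 1) ≫ exch X n i = exch X n (i + 1) ≫ exch X n i ≫
      exch X n (i + 1) := by
  induction n with
  | zero => omega
  | succ n ih =>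
    by_cases h1 : i + 1 = n
    · subst h1
      rw [exch_last, exch_lift X (i + 1) i (by omega), exch_last]
      exact (braid _ _).symm
    · rw [exch_lift X n i (by omega), exch_lift X n (i + 1) h1, ← comp_whiskerRight,
        ← comp_whiskerRight, ih (by omega), comp_whiskerRight, comp_whiskerRight]

lemma exch_comm (X : C) (n i j : ℕ) (hij : i + 1 < j) (hj : j < n) :
    exch X n i ≫ exch X n j = exch X n j ≫ exch X n i := by
  induction n with
  | zero => omega
  | succ n ih =>
    by_cases h1 : j = n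
    · subst h1
      obtain ⟨m, rfl⟩ : ∃ m, j = m + 1 := ⟨j - 1, by omega⟩
      rw [exch_last, exch_lift X (m + 1) i (by omega), exch_lift X m i (by omega)]
      exact sw_nat_left _
    · rw [exch_lift X n i (by omega), exch_lift X n j h1, ← comp_whiskerRight, ih (by omega),
        comp_whiskerRight]

/-- The homomorphism `ρ` is the action of the permutations of the factors on the tensor power
`X ^ (n + 1)`: it sends the transpositions of neighbours to the exchanges. -/
def IsPermAction (X : C) (n : ℕ) (ρ : Equiv.Perm (Fin (n + 1)) →* End (tp X (n + 1))) : Prop :=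
  ∀ i : Fin n, ρ (Equiv.swap i.castSucc i.succ) = exch X n i

/-- The symmetric group acts on the tensor powers. -/
lemma exists_permAction (X : C) (n : ℕ) : ∃ ρ, IsPermAction X n ρ := by
  let s : ℕ → (End (tp X (n + 1)))ˣ := fun i =>
    ⟨exch X n i, exch X n i, exch_sq X n i, exch_sq X n i⟩
  obtain ⟨f, hf⟩ := Cox.cox_lift n s (fun i _ => Units.ext (exch_sq X n i))
    (fun i hi => Units.ext (by
      change exch X n i ≫ exch X n (i + 1) ≫ exch X n i =
        exch X n (i + 1) ≫ exch X n i ≫ exch X n (i + 1)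
      exact exch_braid X n i hi))
    (fun i j hij hj => Units.ext (exch_comm X n i j hij hj).symm)
  exact ⟨(Units.coeHom _).comp f, fun i => by
    rw [MonoidHom.comp_apply, hf i]
    rfl⟩

/-- The action is compatible with the decomposition of the tensor power of a tensor product. -/
lemma exch_zip (A B : C) (n i : ℕ) : exch (A ⊗ B) n i ≫ zip A B (n + 1) =
    zip A B (n + 1) ≫ (exch A n i ⊗ₘ exch B n i) := by
  induction n with
  | zero =>
    change 𝟙 _ ≫ _ = _ ≫ (𝟙 _ ⊗ₘ 𝟙 _)
    rw [id_tensorHom_id, Category.id_comp, Category.comp_id]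
  | succ n ih =>
    by_cases h : i = n
    · subst h
      rw [exch_last, exch_last, exch_last, zip_succ, zip_succ, comp_whiskerRight]
      simp only [Category.assoc]
      rw [← sw_mu, reassoc_of% (sw_nat_left (X := A ⊗ B) (zip A B i))]
    · rw [exch_lift _ n i h, exch_lift _ n i h, exch_lift _ n i h, zip_succ A B (n + 1),
        ← comp_whiskerRight_assoc, ih, comp_whiskerRight_assoc, tensorμ_natural_left,
        Category.assoc]

lemma perm_zip {A B : C} {n : ℕ} {ρ : Equiv.Perm (Fin (n + 1)) →* End (tp (A ⊗ B) (n + 1))}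
    {ρ' : Equiv.Perm (Fin (n + 1)) →* End (tp A (n + 1))}
    {ρ'' : Equiv.Perm (Fin (n + 1)) →* End (tp B (n + 1))}
    (h : IsPermAction (A ⊗ B) n ρ) (h' : IsPermAction A n ρ') (h'' : IsPermAction B n ρ'')
    (σ : Equiv.Perm (Fin (n + 1))) : ρ σ ≫ zip A B (n + 1) =
      zip A B (n + 1) ≫ ((ρ' σ : tp A (n + 1) ⟶ tp A (n + 1)) ⊗ₘ
        (ρ'' σ : tp B (n + 1) ⟶ tp B (n + 1))) := by
  have hσ : σ ∈ Submonoid.closure (Set.range fun i : Fin n => Equiv.swap i.castSucc i.succ) := by
    rw [Equiv.Perm.mclosure_swap_castSucc_succ]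
    trivial
  induction hσ using Submonoid.closure_induction with
  | mem x hx =>
    obtain ⟨i, rfl⟩ := hx
    simp only [h i, h' i, h'' i]
    exact exch_zip A B n i
  | one =>
    rw [map_one, map_one, map_one]
    change 𝟙 _ ≫ _ = _ ≫ (𝟙 _ ⊗ₘ 𝟙 _)
    rw [id_tensorHom_id, Category.id_comp, Category.comp_id]
  | mul x y _ _ hx hy =>
    rw [map_mul, map_mul, map_mul, End.mul_def, End.mul_def, End.mul_def, Category.assoc, hx,
      reassoc_of% hy, tensorHom_comp_tensorHom]

end

section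

variable {C : Type u} [Category.{v} C] [MonoidalCategory C] [SymmetricCategory C]
  [Preadditive C] [Linear ℚ C]

/-- The object `X` is Schur-finite in degree `n + 1`: a non-zero element of the group algebra
`ℚ[S_(n + 1)]` acts as zero on `X ^ (n + 1)`, that is, the automorphisms of `X ^ (n + 1)` given by
the permutations of the factors are linearly dependent over `ℚ`. (As the group algebra is the
product of the matrix algebras attached to the partitions of `n + 1`, this means that the Schur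
functor `S_λ` vanishes on `X` for some partition `λ` of `n + 1`.) -/
def SchurFiniteAt (X : C) (n : ℕ) : Prop :=
  ∃ ρ, IsPermAction X n ρ ∧ ∃ z : Equiv.Perm (Fin (n + 1)) → ℚ, z ≠ 0 ∧
    ∑ σ, z σ • (ρ σ : tp X (n + 1) ⟶ tp X (n + 1)) = 0

variable [MonoidalPreadditive C] [MonoidalLinear ℚ C] [RightRigidCategory C]

/-- The contraction of the second factor. -/
noncomputable def cT (U X : C) : ∀ n : ℕ,
    (U ⊗ tp X n ⟶ U ⊗ tp X n) →ₗ[ℚ] (U ⊗ 𝟙_ C ⟶ U ⊗ 𝟙_ C)
  | 0 => LinearMap.id
  | n + 1 => (cT U X n).comp ((ptrL (U ⊗ tp X n) X).comp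
      { toFun := fun x => (α_ U (tp X n) X).hom ≫ x ≫ (α_ U (tp X n) X).inv
        map_add' := fun x y => by rw [Preadditive.add_comp, Preadditive.comp_add]
        map_smul' := fun c x => by rw [Linear.smul_comp, Linear.comp_smul, RingHom.id_apply] })

lemma cT_tensor {U X : C} (h : U ⟶ U) (n : ℕ) (k : tp X n ⟶ tp X n) :
    cT U X n (h ⊗ₘ k) = h ⊗ₘ ff X n k := by
  induction n with
  | zero => rfl
  | succ n ih =>
    have h1 : ptr ((α_ U (tp X n) X).hom ≫ (h ⊗ₘ k) ≫ (α_ U (tp X n) X).inv) = h ⊗ₘ ptr k := by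
      rw [MonoidalCategory.tensorHom_def h (ptr k), ← ptr_assoc, ← ptr_comp_left,
        MonoidalCategory.tensorHom_def]
      congr 1
      simp
    change cT U X n (ptr ((α_ U (tp X n) X).hom ≫ (h ⊗ₘ k) ≫ (α_ U (tp X n) X).inv)) = _
    rw [h1, ih]
    rfl

lemma ff_const (hU : UnitQ C) {X : C} (g : End X) (n : ℕ) :
    ff X n (Dn n (fun _ => (g : X ⟶ X))) = (trq hU X g ^ n) • 𝟙 _ := by
  induction n with
  | zero =>
    rw [pow_zero, one_smul]
    rfl
  | succ n ih =>
    change ff X n (ptr (Dn n (fun _ => (g : X ⟶ X)) ⊗ₘ (g : X ⟶ X))) = _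
    rw [ptr_tensor _ _ _ (trq_spec hU g), map_smul, ih, smul_smul, pow_succ']

/-- Schur finiteness descends to a tensor factor. -/
theorem schurFinite_of_tensor (hU : UnitQ C) (M N : C) (g : N ⟶ N) (hg : tr g ≠ 0) (n : ℕ)
    (h : SchurFiniteAt (M ⊗ N) n) : SchurFiniteAt M n := by
  obtain ⟨ρ, hρ, z, hz, h0⟩ := h
  obtain ⟨ρ', hρ'⟩ := exists_permAction M n
  obtain ⟨ρ'', hρ''⟩ := exists_permAction N n
  obtain ⟨τ, hτ⟩ := Function.ne_iff.mp hz
  have ht : trq hU N g ≠ 0 := by
    intro h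
    apply hg
    have := trq_spec hU (X := N) g
    rw [h, zero_smul] at this
    exact this
  -- the relation in the tensor product of the two tensor powers
  have h1 : ∑ σ, z σ • ((ρ' σ : tp M (n + 1) ⟶ tp M (n + 1)) ⊗ₘ
      (ρ'' σ : tp N (n + 1) ⟶ tp N (n + 1))) = 0 := by
    obtain ⟨w, hw⟩ := zip_inv M N (n + 1)
    have h2 : ∑ σ, z σ • ((ρ' σ : tp M (n + 1) ⟶ tp M (n + 1)) ⊗ₘ
        (ρ'' σ : tp N (n + 1) ⟶ tp N (n + 1))) =
        w ≫ (∑ σ, z σ • (ρ σ : tp (M ⊗ N) (n + 1) ⟶ _)) ≫ zip M N (n + 1) := by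
      rw [Preadditive.sum_comp, Preadditive.comp_sum]
      refine Finset.sum_congr rfl fun σ _ => ?_
      rw [Linear.smul_comp, Linear.comp_smul, perm_zip hρ hρ' hρ'' σ, reassoc_of% hw]
    rw [h2, h0, zero_comp, comp_zero]
  -- twisting and contracting
  let c : Equiv.Perm (Fin (n + 1)) → ℚ := fun σ =>
    Classical.choose (hU.ex (ff N (n + 1) ((ρ'' σ : tp N (n + 1) ⟶ tp N (n + 1)) ≫
      (ρ'' τ⁻¹ : tp N (n + 1) ⟶ tp N (n + 1)) ≫ Dn (n + 1) (fun _ => g))))
  have hc : ∀ σ, ff N (n + 1) ((ρ'' σ : tp N (n + 1) ⟶ tp N (n + 1)) ≫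
      (ρ'' τ⁻¹ : tp N (n + 1) ⟶ tp N (n + 1)) ≫ Dn (n + 1) (fun _ => g)) = c σ • 𝟙 _ := fun σ =>
    Classical.choose_spec (hU.ex (ff N (n + 1) ((ρ'' σ : tp N (n + 1) ⟶ tp N (n + 1)) ≫
      (ρ'' τ⁻¹ : tp N (n + 1) ⟶ tp N (n + 1)) ≫ Dn (n + 1) (fun _ => g))))
  refine ⟨ρ', hρ', fun σ => z σ * c σ, ?_, ?_⟩
  · intro h2
    have h3 := congrFun h2 τ
    have h4 : c τ = trq hU N g ^ (n + 1) := by
      apply hU.inj
      rw [← hc τ, ← ff_const hU (X := N) g (n + 1)]
      congr 1
      have h5 : (ρ'' τ : tp N (n + 1) ⟶ tp N (n + 1)) ≫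
          (ρ'' τ⁻¹ : tp N (n + 1) ⟶ tp N (n + 1)) = 𝟙 _ := by
        change ρ'' τ⁻¹ * ρ'' τ = 1
        rw [← map_mul, inv_mul_cancel, map_one]
      rw [← Category.assoc, h5, Category.id_comp]
    rw [h4] at h3
    exact (mul_ne_zero hτ (pow_ne_zero _ ht)) h3
  · have h2 : ∑ σ, (z σ * c σ) • ((ρ' σ : tp M (n + 1) ⟶ tp M (n + 1)) ▷ 𝟙_ C) = 0 := by
      have h3 := congrArg (fun w => cT (tp M (n + 1)) N (n + 1) (w ≫ (tp M (n + 1)) ◁
        ((ρ'' τ⁻¹ : tp N (n + 1) ⟶ tp N (n + 1)) ≫ Dn (n + 1) (fun _ => g)))) h1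
      simp only [zero_comp, map_zero, Preadditive.sum_comp, map_sum] at h3
      rw [← h3]
      refine Finset.sum_congr rfl fun σ _ => ?_
      rw [Linear.smul_comp, map_smul, mul_smul, ← id_tensorHom, tensorHom_comp_tensorHom,
        Category.comp_id, cT_tensor, hc σ, MonoidalCategory.tensorHom_def,
        MonoidalLinear.whiskerLeft_smul, Linear.comp_smul, MonoidalCategory.whiskerLeft_id,
        Category.comp_id]
    have h3 : ∑ σ, (z σ * c σ) • (ρ' σ : tp M (n + 1) ⟶ tp M (n + 1)) =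
        (ρ_ _).inv ≫ (∑ σ, (z σ * c σ) • ((ρ' σ : tp M (n + 1) ⟶ tp M (n + 1)) ▷ 𝟙_ C)) ≫
          (ρ_ _).hom := by
      rw [Preadditive.sum_comp, Preadditive.comp_sum]
      refine Finset.sum_congr rfl fun σ _ => ?_
      rw [Linear.smul_comp, Linear.comp_smul]
      congr 1
      simp
    rw [h3, h2, zero_comp, comp_zero]

end

end Pool.Agent.Q20.Kf
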