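import Mathlib

/-!
# Ideals of the group algebra of the symmetric group which are killed by the contraction

The functions on the symmetric group `S_n` on which the sums of the transpositions through any
letter act as the scalar `-d`: if there is one then `n = k * j` and `d = k - j` for positive integers
`k` and `j`.
-/

set_option autoImplicit false

open Equiv Finset

namespace Pool.Agent.Q20.Kf

variable {n : ℕ}

/-- The function `z` is symmetric (`ε = 1`) or antisymmetric (`ε = -1`) in the letters of `S`. -/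
def SymOn (ε : ℚ) (S : Finset (Fin n)) (z : Perm (Fin n) → ℚ) : Prop :=
  ∀ a ∈ S, ∀ b ∈ S, a ≠ b → ∀ h, z (swap a b * h) = ε * z h

/-- Symmetrization with respect to one more letter. -/
lemma symOn_insert {ε : ℚ} (hε : ε * ε = 1) {S : Finset (Fin n)} {z : Perm (Fin n) → ℚ}
    (hz : SymOn ε S z) {l : Fin n} (hl : l ∉ S) :
    SymOn ε (insert l S) (fun h => z h + ε * ∑ m ∈ S, z (swap m l * h)) := by
  -- the case of one new letter
  have hnew : ∀ a ∈ S, ∀ h, (z (swap a l * h) + ε * ∑ m ∈ S, z (swap m l * (swap a l * h))) =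
      ε * (z h + ε * ∑ m ∈ S, z (swap m l * h)) := by
    intro a ha h
    have hal : a ≠ l := fun e => hl (e ▸ ha)
    have h1 : ∑ m ∈ S, z (swap m l * (swap a l * h)) =
        z h + ε * ∑ m ∈ S.erase a, z (swap m l * h) := by
      rw [← add_sum_erase S _ ha, ← mul_assoc, swap_mul_self, one_mul, mul_sum]
      congr 1
      refine sum_congr rfl fun m hm => ?_
      have hma : m ≠ a := (mem_erase.mp hm).1
      have hmS : m ∈ S := (mem_erase.mp hm).2
      have hml : m ≠ l := fun e => hl (e ▸ hmS)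
      have e1 : swap m l * swap a l = swap m a * swap m l := by
        have f1 := swap_mul_eq_mul_swap (swap a l) m l
        have f2 := mul_swap_eq_swap_mul (swap m a) m l
        rw [swap_inv, swap_apply_right, swap_apply_of_ne_of_ne hma hml] at f1
        rw [swap_apply_left, swap_apply_of_ne_of_ne hml.symm hal.symm] at f2
        rw [f1, f2]
      rw [← mul_assoc, e1, mul_assoc]
      exact hz m hmS a ha hma _
    rw [h1, ← add_sum_erase S (fun m => z (swap m l * h)) ha]
    linear_combination -(z (swap a l * h)) * hε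
  intro a ha b hb hab h
  rcases mem_insert.mp ha with rfl | ha'
  · rcases mem_insert.mp hb with rfl | hb'
    · exact absurd rfl hab
    · rw [swap_comm]
      exact hnew b hb' h
  · rcases mem_insert.mp hb with rfl | hb'
    · exact hnew a ha' h
    · have hal : l ≠ a := fun e => hl (e ▸ ha')
      have hbl : l ≠ b := fun e => hl (e ▸ hb')
      have h1 : ∑ m ∈ S, z (swap m l * (swap a b * h)) = ε * ∑ m ∈ S, z (swap m l * h) := by
        rw [mul_sum]
        have hmem : ∀ m ∈ S, swap a b m ∈ S := by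
          intro m hm
          by_cases h1 : m = a
          · rw [h1, swap_apply_left]; exact hb'
          · by_cases h2 : m = b
            · rw [h2, swap_apply_right]; exact ha'
            · rw [swap_apply_of_ne_of_ne h1 h2]; exact hm
        refine sum_nbij' (fun m => swap a b m) (fun m => swap a b m) hmem hmem
          (fun m _ => swap_apply_self a b m) (fun m _ => swap_apply_self a b m) ?_
        intro m hm
        have e1 : swap m l * swap a b = swap a b * swap (swap a b m) l := by
          rw [swap_mul_eq_mul_swap, swap_inv, swap_apply_of_ne_of_ne hal hbl]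
        rw [← mul_assoc, e1, mul_assoc]
        exact hz a ha' b hb' hab _
      change z (swap a b * h) + ε * ∑ m ∈ S, z (swap m l * (swap a b * h)) =
        ε * (z h + ε * ∑ m ∈ S, z (swap m l * h))
      rw [h1, hz a ha' b hb' hab]
      ring

/-- The number of rows (`ε = -1`) or columns (`ε = 1`). -/
lemma rows (hn : 0 < n) (I : Submodule ℚ (Perm (Fin n) → ℚ))
    (hI : ∀ z ∈ I, ∀ g : Perm (Fin n), (fun h => z (g * h)) ∈ I) (d : ℚ)
    (hE : ∀ z ∈ I, ∀ m h, ∑ l ∈ univ.erase m, z (swap l m * h) = -d * z h) (hne : I ≠ ⊥)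
    {ε : ℚ} (hε : ε * ε = 1) :
    ∃ k : ℕ, 1 ≤ k ∧ (n : ℚ) = k * (k + ε * d) ∧
      (k = n → ∃ z ∈ I, z ≠ 0 ∧ SymOn ε univ z) := by
  classical
  obtain ⟨z0, hz0, hz0'⟩ := Submodule.exists_mem_ne_zero_of_ne_bot hne
  let P : Finset (Fin n) → Prop := fun S => ∃ z ∈ I, z ≠ 0 ∧ SymOn ε S z
  have hP1 : P {⟨0, hn⟩} := by
    refine ⟨z0, hz0, hz0', ?_⟩
    intro a ha b hb hab
    rw [mem_singleton] at ha hb
    exact absurd (ha.trans hb.symm) hab
  obtain ⟨S, hS, hmax⟩ := exists_max_image (univ.filter P) card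
    ⟨{⟨0, hn⟩}, by rw [mem_filter]; exact ⟨mem_univ _, hP1⟩⟩
  obtain ⟨-, z, hz, hz', hzS⟩ := mem_filter.mp hS
  have hk1 : 1 ≤ S.card := by
    have := hmax {⟨0, hn⟩} (by rw [mem_filter]; exact ⟨mem_univ _, hP1⟩)
    rwa [card_singleton] at this
  -- maximality
  have hzero : ∀ l ∉ S, ∀ h, ∑ m ∈ S, z (swap m l * h) = -ε * z h := by
    intro l hl h
    have h1 : (fun h => z h + ε * ∑ m ∈ S, z (swap m l * h)) = 0 := by
      by_contra hc
      have h2 : insert l S ∈ univ.filter P := by
        rw [mem_filter]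
        refine ⟨mem_univ _, _, ?_, hc, symOn_insert hε hzS hl⟩
        have h3 : (fun h => z h + ε * ∑ m ∈ S, z (swap m l * h)) =
            z + ε • ∑ m ∈ S, (fun h => z (swap m l * h)) := by
          funext h
          simp
        rw [h3]
        exact I.add_mem hz (I.smul_mem _ (I.sum_mem fun m _ => hI z hz _))
      have h3 := hmax _ h2
      rw [card_insert_of_notMem hl] at h3
      omega
    have h2 : z h + ε * ∑ m ∈ S, z (swap m l * h) = 0 := congrFun h1 h
    linear_combination ε * h2 - (∑ m ∈ S, z (swap m l * h)) * hε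
  have hone : ∀ m ∈ S, ∀ h, ∑ l ∈ Sᶜ, z (swap l m * h) = (-d - ε * (S.card - 1)) * z h := by
    intro m hm h
    have h1 := hE z hz m h
    have h2 : univ.erase m = S.erase m ∪ Sᶜ := by
      ext x
      simp only [mem_erase, mem_univ, and_true, mem_union, mem_compl]
      constructor
      · intro hx
        by_cases hxS : x ∈ S
        · exact Or.inl ⟨hx, hxS⟩
        · exact Or.inr hxS
      · rintro (⟨hx, -⟩ | hx)
        · exact hx
        · exact fun e => hx (e ▸ hm)
    have h3 : Disjoint (S.erase m) Sᶜ := by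
      rw [disjoint_left]
      intro x hx hx'
      exact (mem_compl.mp hx') (mem_of_mem_erase hx)
    rw [h2, sum_union h3] at h1
    have h4 : ∑ l ∈ S.erase m, z (swap l m * h) = (S.card - 1 : ℚ) * (ε * z h) := by
      rw [sum_congr rfl (fun l hl => hzS l (mem_of_mem_erase hl) m hm (ne_of_mem_erase hl) h),
        sum_const, card_erase_of_mem hm, nsmul_eq_mul, Nat.cast_sub hk1, Nat.cast_one]
    rw [h4] at h1
    linear_combination h1
  obtain ⟨h, hh⟩ := Function.ne_iff.mp hz'
  have hh' : z h ≠ 0 := hh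
  have h1 : ∑ l ∈ Sᶜ, ∑ m ∈ S, z (swap m l * h) = ((n : ℚ) - S.card) * (-ε * z h) := by
    rw [sum_congr rfl (fun l hl => hzero l (mem_compl.mp hl) h), sum_const, card_compl,
      Fintype.card_fin, nsmul_eq_mul, Nat.cast_sub (by
        have := card_le_univ S
        rwa [Fintype.card_fin] at this)]
  have h2 : ∑ l ∈ Sᶜ, ∑ m ∈ S, z (swap m l * h) =
      (S.card : ℚ) * ((-d - ε * (S.card - 1)) * z h) := by
    rw [sum_comm]
    have h3 : ∀ m ∈ S, ∑ l ∈ Sᶜ, z (swap m l * h) = (-d - ε * (S.card - 1)) * z h := by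
      intro m hm
      rw [← hone m hm h]
      refine sum_congr rfl fun l _ => ?_
      rw [swap_comm]
    rw [sum_congr rfl h3, sum_const, nsmul_eq_mul]
  refine ⟨S.card, hk1, ?_, ?_⟩
  · have h3 : (((n : ℚ) - S.card) * (-ε) - S.card * (-d - ε * (S.card - 1))) * z h = 0 := by
      rw [h1] at h2
      linear_combination h2
    have h4 := (mul_eq_zero.mp h3).resolve_right hh'
    linear_combination (-ε) * h4 + (-(n : ℚ) + S.card + S.card * (S.card - 1)) * hε
  · intro hk
    refine ⟨z, hz, hz', ?_⟩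
    have h3 : S = univ := by
      apply eq_univ_of_card
      rw [hk, Fintype.card_fin]
    rwa [h3] at hzS

/-- A rectangle. -/
lemma rect (hn : 0 < n) (I : Submodule ℚ (Perm (Fin n) → ℚ))
    (hI : ∀ z ∈ I, ∀ g : Perm (Fin n), (fun h => z (g * h)) ∈ I) (d : ℚ)
    (hE : ∀ z ∈ I, ∀ m h, ∑ l ∈ univ.erase m, z (swap l m * h) = -d * z h) (hne : I ≠ ⊥) :
    ∃ a b : ℕ, n = (a + 1) * (b + 1) ∧ d = (a : ℚ) - b ∧
      (b = 0 → ∃ z ∈ I, z ≠ 0 ∧ SymOn (-1) univ z) ∧
      (a = 0 → ∃ z ∈ I, z ≠ 0 ∧ SymOn 1 univ z) := by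
  obtain ⟨k, hk, hk1, hk2⟩ := rows hn I hI d hE hne (ε := -1) (by norm_num)
  obtain ⟨j, hj, hj1, hj2⟩ := rows hn I hI d hE hne (ε := 1) (by norm_num)
  obtain ⟨a, rfl⟩ : ∃ a, k = a + 1 := ⟨k - 1, by omega⟩
  obtain ⟨b, rfl⟩ : ∃ b, j = b + 1 := ⟨j - 1, by omega⟩
  have hd : d = (a : ℚ) - b := by
    have h1 : ((a : ℚ) + 1 + (b + 1)) * (d - (a - b)) = 0 := by
      push_cast at hk1 hj1
      linear_combination hk1 - hj1
    have h2 : ((a : ℚ) + 1 + (b + 1)) ≠ 0 := by positivity
    have := (mul_eq_zero.mp h1).resolve_left h2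
    linarith
  have hn' : n = (a + 1) * (b + 1) := by
    have h1 : (n : ℚ) = ((a + 1) * (b + 1) : ℕ) := by
      rw [hk1, hd]
      push_cast
      ring
    exact_mod_cast h1
  refine ⟨a, b, hn', hd, fun hb => hk2 ?_, fun ha => hj2 ?_⟩
  · subst hb
    rw [hn']
    ring
  · subst ha
    rw [hn']
    ring

end Pool.Agent.Q20.Kf
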