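import Pool.Agent.Q20.Kf.Main
import Pool.Agent.Q20.Kf.Perm
import Pool.Agent.Q20.Kf.Rect

/-!
# The type of a Schur-finite object
-/

set_option autoImplicit false
set_option linter.unusedSectionVars false
set_option linter.unusedSimpArgs false
set_option backward.isDefEq.respectTransparency false
set_option backward.defeqAttrib.useBackward true

open CategoryTheory Limits MonoidalCategory
open Pool.Agent.Y112.SR Pool.Agent.Y112.KD
open Pool.Agent.Y116.MT (tr)
open Equiv (Perm)

namespace Pool.Agent.Q20.Kf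

universe v u

section

/-- The embedding of the symmetric groups. -/
noncomputable def up (m : ℕ) : Perm (Fin m) →* Perm (Fin (m + 1)) :=
  Equiv.Perm.extendDomainHom (finSuccAboveEquiv (Fin.last m))

lemma fsa {m : ℕ} (j : Fin m) :
    ((finSuccAboveEquiv (Fin.last m) j : { x : Fin (m + 1) // x ≠ Fin.last m }) : Fin (m + 1)) =
      j.castSucc := by
  change (Fin.last m).succAbove j = _
  exact Fin.succAbove_last_apply j

lemma up_castSucc {m : ℕ} (σ : Perm (Fin m)) (i : Fin m) :
    up m σ i.castSucc = (σ i).castSucc := by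
  have h := Equiv.Perm.extendDomain_apply_image σ (finSuccAboveEquiv (Fin.last m)) i
  rw [fsa, fsa] at h
  exact h

lemma up_last {m : ℕ} (σ : Perm (Fin m)) : up m σ (Fin.last m) = Fin.last m :=
  Equiv.Perm.extendDomain_apply_not_subtype σ (finSuccAboveEquiv (Fin.last m)) (by simp)

lemma perm_ext_last {m : ℕ} {σ τ : Perm (Fin (m + 1))}
    (h1 : ∀ i : Fin m, σ i.castSucc = τ i.castSucc) (h2 : σ (Fin.last m) = τ (Fin.last m)) :
    σ = τ := by
  ext x
  induction x using Fin.lastCases with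
  | last => rw [h2]
  | cast i => rw [h1]

lemma up_swap {m : ℕ} (i j : Fin m) :
    up m (Equiv.swap i j) = Equiv.swap i.castSucc j.castSucc := by
  apply perm_ext_last
  · intro k
    rw [up_castSucc]
    by_cases h1 : k = i
    · rw [h1, Equiv.swap_apply_left, Equiv.swap_apply_left]
    · by_cases h2 : k = j
      · rw [h2, Equiv.swap_apply_right, Equiv.swap_apply_right]
      · rw [Equiv.swap_apply_of_ne_of_ne h1 h2, Equiv.swap_apply_of_ne_of_ne
          (fun e => h1 (Fin.castSucc_injective _ e)) (fun e => h2 (Fin.castSucc_injective _ e))]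
  · rw [up_last, Equiv.swap_apply_of_ne_of_ne (Fin.castSucc_lt_last i).ne'
      (Fin.castSucc_lt_last j).ne']

lemma up_injective (m : ℕ) : Function.Injective (up m) := by
  intro σ τ h
  ext i
  have h1 := congrArg (fun f => f i.castSucc) h
  simp only [up_castSucc] at h1
  rw [Fin.castSucc_injective _ h1]

lemma exists_up {m : ℕ} {σ : Perm (Fin (m + 1))} (h : σ (Fin.last m) = Fin.last m) :
    ∃ τ, up m τ = σ := by
  have hp : ∀ x, x ≠ Fin.last m ↔ σ x ≠ Fin.last m := by
    intro x
    rw [not_iff_not]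
    constructor
    · intro hx
      rw [hx, h]
    · intro hx
      apply σ.injective
      rw [hx, h]
  let f := finSuccAboveEquiv (Fin.last m)
  refine ⟨f.trans ((σ.subtypePerm (fun x => (hp x).symm)).trans f.symm), ?_⟩
  apply perm_ext_last
  · intro i
    rw [up_castSucc]
    have h1 : ∀ j : Fin m, j.castSucc = (f j : Fin (m + 1)) := fun j => (fsa j).symm
    rw [h1, h1]
    simp
  · rw [up_last, h]

end

section

variable {C : Type u} [Category.{v} C] [MonoidalCategory C] [SymmetricCategory C]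

lemma mem_gen {n : ℕ} (σ : Perm (Fin (n + 1))) :
    σ ∈ Submonoid.closure (Set.range fun i : Fin n => Equiv.swap i.castSucc i.succ) := by
  rw [Equiv.Perm.mclosure_swap_castSucc_succ]
  trivial

lemma permAction_unique {X : C} {n : ℕ} {ρ ρ' : Perm (Fin (n + 1)) →* End (tp X (n + 1))}
    (h : IsPermAction X n ρ) (h' : IsPermAction X n ρ') (σ : Perm (Fin (n + 1))) :
    ρ σ = ρ' σ := by
  induction mem_gen σ using Submonoid.closure_induction with
  | mem x hx =>
    obtain ⟨i, rfl⟩ := hx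
    simp only [h i, h' i]
  | one => rw [map_one, map_one]
  | mul x y _ _ hx hy => rw [map_mul, map_mul, hx, hy]

/-- The action of the symmetric group. -/
noncomputable def pa (X : C) (n : ℕ) : Perm (Fin (n + 1)) →* End (tp X (n + 1)) :=
  Classical.choose (exists_permAction X n)

lemma pa_spec (X : C) (n : ℕ) : IsPermAction X n (pa X n) :=
  Classical.choose_spec (exists_permAction X n)

lemma pa_up (X : C) (m : ℕ) (σ : Perm (Fin (m + 1))) :
    pa X (m + 1) (up (m + 1) σ) = (pa X m σ : tp X (m + 1) ⟶ tp X (m + 1)) ▷ X := by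
  induction mem_gen σ using Submonoid.closure_induction with
  | mem x hx =>
    obtain ⟨i, rfl⟩ := hx
    have h1 : up (m + 1) (Equiv.swap i.castSucc i.succ) =
        Equiv.swap (i.castSucc.castSucc) (i.castSucc.succ) := by
      rw [up_swap, Fin.succ_castSucc]
    simp only [h1]
    rw [pa_spec X (m + 1) i.castSucc, pa_spec X m i]
    exact exch_lift X m _ (by simp; omega)
  | one =>
    rw [map_one, map_one, map_one]
    exact (id_whiskerRight _ _).symm
  | mul x y _ _ hx hy =>
    rw [map_mul, map_mul, map_mul, hx, hy]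
    exact (comp_whiskerRight _ _ _).symm

lemma pa_last (X : C) (m : ℕ) :
    pa X (m + 1) (Equiv.swap (Fin.last m).castSucc (Fin.last (m + 1))) = sw (tp X m) X := by
  have h := pa_spec X (m + 1) (Fin.last m)
  rw [Fin.succ_last] at h
  rw [h]
  exact exch_last X m

lemma exch_isSwap (X : C) (n i : ℕ) (h : i < n) : IsSwap X (n + 1) (exch X n i) := by
  induction n with
  | zero => omega
  | succ n ih =>
    by_cases h1 : i = n
    · subst h1
      rw [exch_last]
      exact IsSwap.last i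
    · rw [exch_lift X n i h1]
      exact IsSwap.lift _ _ (ih (by omega))

end

section

variable {C : Type u} [Category.{v} C] [MonoidalCategory C] [SymmetricCategory C]
  [Preadditive C] [Linear ℚ C]

/-- The relations between the permutations of the factors of the tensor power `X ^ (n + 1)`. -/
noncomputable def Rel (X : C) (n : ℕ) : Submodule ℚ (Perm (Fin (n + 1)) → ℚ) where
  carrier := {z | ∑ σ, z σ • (pa X n σ : tp X (n + 1) ⟶ tp X (n + 1)) = 0}
  zero_mem' := by simp
  add_mem' := by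
    intro z w hz hw
    simp only [Set.mem_ofPred_eq, Pi.add_apply, add_smul, Finset.sum_add_distrib] at *
    rw [hz, hw, add_zero]
  smul_mem' := by
    intro c z hz
    simp only [Set.mem_ofPred_eq, Pi.smul_apply, smul_eq_mul, mul_smul] at *
    rw [← Finset.smul_sum, hz, smul_zero]

lemma mem_rel {X : C} {n : ℕ} {z : Perm (Fin (n + 1)) → ℚ} :
    z ∈ Rel X n ↔ ∑ σ, z σ • (pa X n σ : tp X (n + 1) ⟶ tp X (n + 1)) = 0 := Iff.rfl

lemma schurFiniteAt_iff {X : C} {n : ℕ} : SchurFiniteAt X n ↔ Rel X n ≠ ⊥ := by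
  rw [Submodule.ne_bot_iff]
  constructor
  · rintro ⟨ρ, hρ, z, hz, h⟩
    refine ⟨z, ?_, hz⟩
    rw [mem_rel, ← h]
    exact Finset.sum_congr rfl fun σ _ => by rw [permAction_unique hρ (pa_spec X n)]
  · rintro ⟨z, hz, hz'⟩
    exact ⟨pa X n, pa_spec X n, z, hz', hz⟩

lemma rel_translate {X : C} {n : ℕ} {z : Perm (Fin (n + 1)) → ℚ} (hz : z ∈ Rel X n)
    (g k : Perm (Fin (n + 1))) : (fun h => z (g * h * k)) ∈ Rel X n := by
  rw [mem_rel] at hz ⊢
  have h1 : ∀ σ : Perm (Fin (n + 1)), (pa X n (g⁻¹ * σ * k⁻¹) : tp X (n + 1) ⟶ tp X (n + 1)) =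
      (pa X n k⁻¹ : tp X (n + 1) ⟶ _) ≫ (pa X n σ : tp X (n + 1) ⟶ _) ≫
        (pa X n g⁻¹ : tp X (n + 1) ⟶ _) := by
    intro σ
    rw [map_mul, map_mul, End.mul_def, End.mul_def]
  have h2 : ∑ σ, z (g * σ * k) • (pa X n σ : tp X (n + 1) ⟶ tp X (n + 1)) =
      ∑ σ, z σ • (pa X n (g⁻¹ * σ * k⁻¹) : tp X (n + 1) ⟶ tp X (n + 1)) := by
    refine Fintype.sum_equiv ((Equiv.mulLeft g).trans (Equiv.mulRight k)) _ _ fun σ => ?_
    simp only [Equiv.trans_apply, Equiv.coe_mulLeft, Equiv.coe_mulRight]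
    congr 2
    group
  have h3 : ∑ σ, z σ • (pa X n (g⁻¹ * σ * k⁻¹) : tp X (n + 1) ⟶ tp X (n + 1)) =
      (pa X n k⁻¹ : tp X (n + 1) ⟶ _) ≫ (∑ σ, z σ • (pa X n σ : tp X (n + 1) ⟶ tp X (n + 1))) ≫
        (pa X n g⁻¹ : tp X (n + 1) ⟶ _) := by
    rw [Preadditive.sum_comp, Preadditive.comp_sum]
    refine Finset.sum_congr rfl fun σ _ => ?_
    rw [h1, Linear.smul_comp, Linear.comp_smul]
  rw [h2, h3, hz, zero_comp, comp_zero]

/-- A relation which is a character kills the symmetric or exterior power. -/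
lemma kills_of_symOn {X : C} {n : ℕ} {ε : ℚ} (hε : ε * ε = 1) {z : Perm (Fin (n + 1)) → ℚ}
    (hz : z ∈ Rel X n) (hz0 : z ≠ 0) (hs : SymOn ε Finset.univ z) : Kills ε X (n + 1) := by
  intro Z f hf
  have key : ∀ σ : Perm (Fin (n + 1)), ∃ c : ℚ, c * c = 1 ∧ (∀ h, z (σ * h) = c * z h) ∧
      (pa X n σ : tp X (n + 1) ⟶ tp X (n + 1)) ≫ f = c • f := by
    intro σ
    induction mem_gen σ using Submonoid.closure_induction with
    | mem x hx =>
      obtain ⟨i, rfl⟩ := hx
      refine ⟨ε, hε, fun h => hs _ (Finset.mem_univ _) _ (Finset.mem_univ _)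
        (Fin.castSucc_lt_succ).ne h, ?_⟩
      simp only
      rw [pa_spec X n i]
      exact hf _ (exch_isSwap X n i i.2)
    | one =>
      refine ⟨1, one_mul 1, fun h => by rw [one_mul, one_mul], ?_⟩
      rw [map_one, one_smul]
      exact Category.id_comp f
    | mul x y _ _ hx hy =>
      obtain ⟨c, hc, hc', hc''⟩ := hx
      obtain ⟨d, hd, hd', hd''⟩ := hy
      refine ⟨c * d, by linear_combination (d * d) * hc + hd,
        fun h => by rw [mul_assoc, hc', hd', mul_assoc], ?_⟩
      rw [map_mul, End.mul_def, Category.assoc, hc'', Linear.comp_smul, hd'', smul_smul]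
  have hz1 : z 1 ≠ 0 := by
    intro h
    apply hz0
    funext σ
    obtain ⟨c, -, hc, -⟩ := key σ
    have := hc 1
    rw [mul_one, h, mul_zero] at this
    exact this
  have h1 : (∑ σ, z σ • (pa X n σ : tp X (n + 1) ⟶ tp X (n + 1))) ≫ f =
      ((Fintype.card (Perm (Fin (n + 1))) : ℚ) * z 1) • f := by
    rw [Preadditive.sum_comp]
    have h2 : ∀ σ : Perm (Fin (n + 1)), (z σ • (pa X n σ : tp X (n + 1) ⟶ tp X (n + 1))) ≫ f =
        z 1 • f := by
      intro σ
      obtain ⟨c, hc, hc', hc''⟩ := key σ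
      have h3 := hc' 1
      rw [mul_one] at h3
      rw [Linear.smul_comp, hc'', smul_smul, h3]
      congr 1
      linear_combination z 1 * hc
    rw [Finset.sum_congr rfl fun σ _ => h2 σ, Finset.sum_const, Finset.card_univ, mul_smul,
      Nat.cast_smul_eq_nsmul]
  rw [mem_rel.mp hz, zero_comp] at h1
  refine (smul_eq_zero.mp h1.symm).resolve_left (mul_ne_zero ?_ hz1)
  exact_mod_cast Fintype.card_ne_zero

variable [MonoidalPreadditive C] [MonoidalLinear ℚ C]

/-- Relations persist. -/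
lemma rel_succ {X : C} {n : ℕ} (h : Rel X n ≠ ⊥) : Rel X (n + 1) ≠ ⊥ := by
  classical
  rw [Submodule.ne_bot_iff] at h ⊢
  obtain ⟨z, hz, hz0⟩ := h
  let w : Perm (Fin (n + 2)) → ℚ := fun σ => ∑ τ, if up (n + 1) τ = σ then z τ else 0
  refine ⟨w, ?_, ?_⟩
  · rw [mem_rel] at hz ⊢
    have h1 : ∑ σ, w σ • (pa X (n + 1) σ : tp X (n + 2) ⟶ tp X (n + 2)) =
        ∑ τ, z τ • (pa X (n + 1) (up (n + 1) τ) : tp X (n + 2) ⟶ tp X (n + 2)) := by
      simp only [w, Finset.sum_smul]
      rw [Finset.sum_comm]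
      refine Finset.sum_congr rfl fun τ _ => ?_
      rw [Finset.sum_eq_single (up (n + 1) τ)]
      · rw [if_pos rfl]
      · intro b _ hb
        rw [if_neg (Ne.symm hb), zero_smul]
      · intro h
        exact absurd (Finset.mem_univ _) h
    rw [h1]
    have h2 : ∑ τ, z τ • (pa X (n + 1) (up (n + 1) τ) : tp X (n + 2) ⟶ tp X (n + 2)) =
        (∑ τ, z τ • (pa X n τ : tp X (n + 1) ⟶ tp X (n + 1))) ▷ X := by
      refine Eq.trans ?_ ((tensorRight X).map_sum _ _).symm
      refine Finset.sum_congr rfl fun τ _ => ?_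
      rw [pa_up]
      exact (MonoidalLinear.smul_whiskerRight _ _ _).symm
    rw [h2, hz]
    exact (tensorRight X).map_zero _ _
  · obtain ⟨τ, hτ⟩ := Function.ne_iff.mp hz0
    rw [Function.ne_iff]
    refine ⟨up (n + 1) τ, ?_⟩
    have : w (up (n + 1) τ) = z τ := by
      simp only [w]
      rw [Finset.sum_eq_single τ]
      · rw [if_pos rfl]
      · intro b _ hb
        rw [if_neg fun e => hb (up_injective _ e)]
      · intro h
        exact absurd (Finset.mem_univ _) h
    rw [this]
    exact hτ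

variable [RightRigidCategory C]

/-- The contraction of a permutation. -/
lemma ptr_pa (X : C) (d : ℚ) (hd : tr (𝟙 X) = d • 𝟙 _) (m : ℕ) (σ : Perm (Fin (m + 2))) :
    ∃ π : Perm (Fin (m + 1)), ptr (pa X (m + 1) σ : tp X (m + 1) ⊗ X ⟶ tp X (m + 1) ⊗ X) =
      (if σ (Fin.last (m + 1)) = Fin.last (m + 1) then d else 1) •
        (pa X m π : tp X (m + 1) ⟶ tp X (m + 1)) ∧
      (π = 1 ↔ σ = 1 ∨ ∃ k : Fin (m + 1), σ = Equiv.swap k.castSucc (Fin.last (m + 1))) := by
  by_cases h : σ (Fin.last (m + 1)) = Fin.last (m + 1)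
  · obtain ⟨τ, rfl⟩ := exists_up h
    refine ⟨τ, ?_, ?_⟩
    · rw [if_pos h, pa_up, ← tensorHom_id]
      exact ptr_tensor _ _ _ hd
    · constructor
      · rintro rfl
        exact Or.inl (map_one _)
      · rintro (h1 | ⟨k, hk⟩)
        · exact up_injective _ (h1.trans (map_one _).symm)
        · exfalso
          have h2 := congrArg (fun f => f (Fin.last (m + 1))) hk
          simp only [Equiv.swap_apply_right] at h2
          rw [up_last] at h2
          exact (Fin.castSucc_lt_last k).ne h2.symm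
  · obtain ⟨c, hc⟩ : ∃ c : Fin (m + 1), σ (Fin.last (m + 1)) = c.castSucc := by
      have := Fin.exists_castSucc_eq.mpr h
      obtain ⟨c, hc⟩ := this
      exact ⟨c, hc.symm⟩
    let α : Perm (Fin (m + 1)) := Equiv.swap c (Fin.last m)
    let s : Perm (Fin (m + 2)) := Equiv.swap (Fin.last m).castSucc (Fin.last (m + 1))
    have hss : s * s = 1 := Equiv.swap_mul_self _ _
    have h1 : (s * (up (m + 1) α)⁻¹ * σ) (Fin.last (m + 1)) = Fin.last (m + 1) := by
      have h2 : (up (m + 1) α)⁻¹ c.castSucc = (Fin.last m).castSucc := by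
        rw [Equiv.Perm.inv_eq_iff_eq, up_castSucc, Equiv.swap_apply_right]
      rw [Equiv.Perm.mul_apply, Equiv.Perm.mul_apply, hc, h2, Equiv.swap_apply_left]
    obtain ⟨β, hβ⟩ := exists_up h1
    have hσ : σ = up (m + 1) α * s * up (m + 1) β := by
      rw [hβ]
      calc σ = up (m + 1) α * (s * s) * (up (m + 1) α)⁻¹ * σ := by rw [hss]; group
        _ = _ := by group
    refine ⟨α * β, ?_, ?_⟩
    · rw [if_neg h, one_smul]
      have h2 : (pa X (m + 1) σ : tp X (m + 2) ⟶ tp X (m + 2)) =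
          (pa X m β : tp X (m + 1) ⟶ tp X (m + 1)) ▷ X ≫ sw (tp X m) X ≫
            (pa X m α : tp X (m + 1) ⟶ tp X (m + 1)) ▷ X := by
        conv_lhs => rw [hσ]
        rw [map_mul, map_mul, End.mul_def, End.mul_def, pa_up, pa_up, pa_last]
      rw [h2]
      have h3 := ptr_comp (N := X) (pa X m β : tp X (m + 1) ⟶ tp X (m + 1))
        (pa X m α : tp X (m + 1) ⟶ tp X (m + 1)) (sw (tp X m) X)
      refine h3.trans ?_
      rw [ptr_sw, Category.id_comp, map_mul, End.mul_def]
    · constructor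
      · intro h2
        right
        refine ⟨c, ?_⟩
        have h3 : β = α⁻¹ := (inv_eq_of_mul_eq_one_right h2).symm
        rw [hσ, h3, map_inv, Equiv.mul_swap_eq_swap_mul, mul_assoc, mul_inv_cancel, mul_one,
          up_castSucc, up_last, Equiv.swap_apply_right]
      · rintro (h2 | ⟨k, hk⟩)
        · exfalso
          apply h
          rw [h2]
          rfl
        · have hkc : k = c := by
            have h3 := congrArg (fun f => f (Fin.last (m + 1))) hk
            simp only [Equiv.swap_apply_right] at h3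
            rw [hc] at h3
            exact (Fin.castSucc_injective _ h3).symm
          subst hkc
          apply up_injective (m + 1)
          rw [map_mul, map_one]
          have h3 : up (m + 1) α * s = σ * up (m + 1) α := by
            rw [hk, Equiv.mul_swap_eq_swap_mul, up_castSucc, up_last, Equiv.swap_apply_right]
          have h4 : σ = σ * (up (m + 1) α * up (m + 1) β) := by
            rw [← mul_assoc, ← h3]
            exact hσ
          exact (mul_eq_left.mp h4.symm)

/-- If there is no relation in degree `m + 1` then the transpositions through the last letter act as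
`-d` on the relations of degree `m + 2`. -/
lemma rel_last {X : C} {d : ℚ} (hd : tr (𝟙 X) = d • 𝟙 _) {m : ℕ}
    (hm : Rel X m = ⊥) {z : Perm (Fin (m + 2)) → ℚ} (hz : z ∈ Rel X (m + 1)) :
    d * z 1 + ∑ k : Fin (m + 1), z (Equiv.swap k.castSucc (Fin.last (m + 1))) = 0 := by
  classical
  choose π hπ hπ1 using ptr_pa X d hd m
  let c : Perm (Fin (m + 2)) → ℚ := fun σ =>
    if σ (Fin.last (m + 1)) = Fin.last (m + 1) then d else 1
  let w : Perm (Fin (m + 1)) → ℚ := fun τ => ∑ σ ∈ Finset.univ.filter (fun σ => π σ = τ), z σ * c σ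
  have hw : w ∈ Rel X m := by
    rw [mem_rel]
    have h1 : ∑ τ, w τ • (pa X m τ : tp X (m + 1) ⟶ tp X (m + 1)) =
        ∑ σ, (z σ * c σ) • (pa X m (π σ) : tp X (m + 1) ⟶ tp X (m + 1)) := by
      simp only [w, Finset.sum_smul]
      rw [← Finset.sum_fiberwise_of_maps_to (g := π) (s := Finset.univ) (t := Finset.univ)
        (fun _ _ => Finset.mem_univ _)
        (fun σ => (z σ * c σ) • (pa X m (π σ) : tp X (m + 1) ⟶ tp X (m + 1)))]
      refine Finset.sum_congr rfl fun τ _ => Finset.sum_congr rfl fun σ hσ => ?_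
      rw [(Finset.mem_filter.mp hσ).2]
    rw [h1]
    have h2 := congrArg (fun f => ptrL (tp X (m + 1)) X f) (mem_rel.mp hz)
    simp only [map_sum, map_zero, map_smul] at h2
    rw [← h2]
    refine Finset.sum_congr rfl fun σ _ => ?_
    rw [mul_smul]
    congr 1
    exact (hπ σ).symm
  rw [hm, Submodule.mem_bot] at hw
  have h1 : w 1 = 0 := congrFun hw 1
  have h2 : Finset.univ.filter (fun σ => π σ = 1) = insert 1
      (Finset.univ.image fun k : Fin (m + 1) => Equiv.swap k.castSucc (Fin.last (m + 1))) := by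
    ext σ
    simp only [Finset.mem_filter, Finset.mem_univ, true_and, Finset.mem_insert, Finset.mem_image]
    rw [hπ1 σ]
    constructor
    · rintro (h | ⟨k, hk⟩)
      · exact Or.inl h
      · exact Or.inr ⟨k, hk.symm⟩
    · rintro (h | ⟨k, hk⟩)
      · exact Or.inl h
      · exact Or.inr ⟨k, hk.symm⟩
  have hsl : ∀ k : Fin (m + 1), (Equiv.swap k.castSucc (Fin.last (m + 1)) : Perm (Fin (m + 2)))
      (Fin.last (m + 1)) = k.castSucc := fun k => Equiv.swap_apply_right _ _
  have h3 : (1 : Perm (Fin (m + 2))) ∉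
      (Finset.univ.image fun k : Fin (m + 1) => Equiv.swap k.castSucc (Fin.last (m + 1))) := by
    rw [Finset.mem_image]
    rintro ⟨k, -, hk⟩
    have h4 := hsl k
    rw [hk] at h4
    exact (Fin.castSucc_lt_last k).ne h4.symm
  simp only [w] at h1
  rw [h2, Finset.sum_insert h3, Finset.sum_image] at h1
  · have h4 : c 1 = d := if_pos rfl
    rw [h4, mul_comm] at h1
    rw [← h1]
    congr 1
    refine Finset.sum_congr rfl fun k _ => ?_
    have h5 : c (Equiv.swap k.castSucc (Fin.last (m + 1))) = 1 := by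
      apply if_neg
      rw [hsl]
      exact (Fin.castSucc_lt_last k).ne
    rw [h5, mul_one]
  · intro a _ b _ hab
    have h4 := congrArg (fun f => f (Fin.last (m + 1))) hab
    simp only [Equiv.swap_apply_right] at h4
    exact Fin.castSucc_injective _ h4

lemma rel_letter {X : C} {d : ℚ} (hd : tr (𝟙 X) = d • 𝟙 _) {m : ℕ}
    (hm : Rel X m = ⊥) {z : Perm (Fin (m + 2)) → ℚ} (hz : z ∈ Rel X (m + 1)) (a : Fin (m + 2))
    (h : Perm (Fin (m + 2))) :
    ∑ l ∈ Finset.univ.erase a, z (Equiv.swap l a * h) = -d * z h := by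
  let g : Perm (Fin (m + 2)) := Equiv.swap (Fin.last (m + 1)) a
  have hg : g (Fin.last (m + 1)) = a := Equiv.swap_apply_left _ _
  have h1 := rel_last hd hm (rel_translate hz g (g⁻¹ * h))
  have e1 : g * 1 * (g⁻¹ * h) = h := by group
  have e2 : ∀ k : Fin (m + 1), g * Equiv.swap k.castSucc (Fin.last (m + 1)) * (g⁻¹ * h) =
      Equiv.swap (g k.castSucc) a * h := by
    intro k
    rw [Equiv.mul_swap_eq_swap_mul, hg]
    group
  rw [e1, Finset.sum_congr rfl fun k _ => by rw [e2 k]] at h1
  have h2 : ∑ l ∈ Finset.univ.erase a, z (Equiv.swap l a * h) =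
      ∑ k : Fin (m + 1), z (Equiv.swap (g k.castSucc) a * h) := by
    symm
    refine Finset.sum_bij (fun k _ => g k.castSucc) ?_ ?_ ?_ ?_
    · intro k _
      rw [Finset.mem_erase]
      refine ⟨?_, Finset.mem_univ _⟩
      rw [← hg]
      exact fun e => (Fin.castSucc_lt_last k).ne (g.injective e)
    · intro k _ k' _ e
      exact Fin.castSucc_injective _ (g.injective e)
    · intro l hl
      have h3 : g⁻¹ l ≠ Fin.last (m + 1) := by
        intro e
        rw [Equiv.Perm.inv_eq_iff_eq, hg] at e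
        exact (Finset.ne_of_mem_erase hl) e
      obtain ⟨k, hk⟩ := Fin.exists_castSucc_eq.mpr h3
      refine ⟨k, Finset.mem_univ _, ?_⟩
      rw [hk]
      simp
    · intro k _
      rfl
  rw [h2]
  linear_combination h1

lemma rel_zero (hU : UnitQ C) {X : C} {d : ℚ} (hd : tr (𝟙 X) = d • 𝟙 _)
    {z : Perm (Fin 1) → ℚ} (hz : z ∈ Rel X 0) (a : Fin 1) (h : Perm (Fin 1)) :
    ∑ l ∈ Finset.univ.erase a, z (Equiv.swap l a * h) = -d * z h := by
  have h1 : Finset.univ.erase a = (∅ : Finset (Fin 1)) := by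
    ext x
    simp [Subsingleton.elim x a]
  rw [h1, Finset.sum_empty]
  have h2 : ∑ σ : Perm (Fin 1), z σ • (pa X 0 σ : tp X 1 ⟶ tp X 1) = 0 := mem_rel.mp hz
  have h3 : (Finset.univ : Finset (Perm (Fin 1))) = {1} := by
    ext x
    simp [Subsingleton.elim x 1]
  rw [h3, Finset.sum_singleton, map_one] at h2
  have h4 := congrArg (fun f => ptrL (𝟙_ C) X f) h2
  simp only [map_smul, map_zero] at h4
  have h5 : ptrL (𝟙_ C) X (1 : End (tp X 1)) = d • 𝟙 _ := by
    have h6 := ptr_tensor (𝟙 (𝟙_ C)) (𝟙 X) d hd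
    rw [id_tensorHom_id] at h6
    exact h6
  rw [h5, smul_smul] at h4
  have h7 : z 1 * d = 0 := by
    apply hU.inj
    rw [h4, zero_smul]
  rw [Subsingleton.elim h 1]
  linarith

/-- The type of a Schur-finite object. -/
theorem schur_type (hU : UnitQ C) (X : C) {n : ℕ} (h : SchurFiniteAt X n) :
    ∃ a b : ℕ, tr (𝟙 X) = ((a : ℚ) - b) • 𝟙 _ ∧
      (∀ m, SchurFiniteAt X m ↔ (a + 1) * (b + 1) ≤ m + 1) ∧
      (b = 0 → Kills (-1) X (a + 1)) ∧ (a = 0 → Kills 1 X (b + 1)) := by
  classical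
  obtain ⟨d, hd⟩ := hU.ex (tr (𝟙 X))
  have hex : ∃ n, Rel X n ≠ ⊥ := ⟨n, schurFiniteAt_iff.mp h⟩
  let N := Nat.find hex
  have hN : Rel X N ≠ ⊥ := Nat.find_spec hex
  have hmin : ∀ m, m < N → Rel X m = ⊥ := fun m hm => by
    have := Nat.find_min hex hm
    push Not at this
    exact this
  have hmono : ∀ m, Rel X m ≠ ⊥ ↔ N ≤ m := by
    intro m
    constructor
    · intro hm
      by_contra hlt
      exact hm (hmin m (by omega))
    · intro hm
      obtain ⟨j, rfl⟩ := Nat.exists_eq_add_of_le hm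
      clear hm
      induction j with
      | zero => exact hN
      | succ j ih => exact rel_succ ih
  have hE : ∀ z ∈ Rel X N, ∀ a h, ∑ l ∈ Finset.univ.erase a, z (Equiv.swap l a * h) = -d * z h := by
    rcases Nat.eq_zero_or_pos N with h0 | h0
    · rw [h0]
      intro z hz a h
      exact rel_zero hU hd hz a h
    · obtain ⟨m, hm⟩ : ∃ m, N = m + 1 := ⟨N - 1, by omega⟩
      rw [hm]
      intro z hz a h
      exact rel_letter hd (hmin m (by omega)) hz a h
  obtain ⟨a, b, hab, hdab, h1, h2⟩ := rect (n := N + 1) (Nat.succ_pos N) (Rel X N)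
    (fun z hz g => by
      have := rel_translate hz g 1
      simpa using this) d hE hN
  refine ⟨a, b, by rw [hd, hdab], ?_, ?_, ?_⟩
  · intro m
    rw [schurFiniteAt_iff, hmono, ← hab]
    omega
  · intro hb
    obtain ⟨z, hz, hz0, hs⟩ := h1 hb
    have h3 := kills_of_symOn (by norm_num) hz hz0 hs
    rw [hab, hb] at h3
    simpa using h3
  · intro ha
    obtain ⟨z, hz, hz0, hs⟩ := h2 ha
    have h3 := kills_of_symOn (by norm_num) hz hz0 hs
    rw [hab, ha] at h3
    simpa using h3

/-- Short relations. -/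
theorem short_relation (hU : UnitQ C) (X : C) {n : ℕ} (h : SchurFiniteAt X n) :
    ∃ a b : ℕ, tr (𝟙 X) = ((a : ℚ) - b) • 𝟙 _ ∧
      (∀ m, SchurFiniteAt X m ↔ (a + 1) * (b + 1) ≤ m + 1) ∧
      (b = 0 → Kills (-1) X (a + 1)) ∧ (a = 0 → Kills 1 X (b + 1)) ∧
      ((n : ℤ) + 1 < 2 * (|(a : ℤ) - b| + 2) → Kills (-1) X (a + 1) ∨ Kills 1 X (b + 1)) := by
  obtain ⟨a, b, h1, h2, h3, h4⟩ := schur_type hU X h
  refine ⟨a, b, h1, h2, h3, h4, fun hn => ?_⟩
  have h5 : ((a : ℤ) + 1) * (b + 1) ≤ n + 1 := by exact_mod_cast (h2 n).mp h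
  by_cases ha : a = 0
  · exact Or.inr (h4 ha)
  · by_cases hb : b = 0
    · exact Or.inl (h3 hb)
    · exfalso
      have ha' : (1 : ℤ) ≤ a := by omega
      have hb' : (1 : ℤ) ≤ b := by omega
      rcases abs_cases ((a : ℤ) - b) with ⟨h6, -⟩ | ⟨h6, -⟩
      · rw [h6] at hn
        nlinarith
      · rw [h6] at hn
        nlinarith

end

end Pool.Agent.Q20.Kf
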