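import Pool.Agent.Q20.Kf.Main

/-!
# Tensor powers, symmetrizers and traces under symmetric monoidal functors
-/

set_option autoImplicit false
set_option linter.unusedSectionVars false
set_option linter.unusedSimpArgs false
set_option backward.isDefEq.respectTransparency false
set_option backward.defeqAttrib.useBackward true

open CategoryTheory Limits MonoidalCategory
open Pool.Agent.Y112.SR Pool.Agent.Y112.KD
open Pool.Agent.Y116.MT (tr)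

namespace Pool.Agent.Q20.Kf

universe v u v' u'

open Functor.LaxMonoidal Functor.OplaxMonoidal

section

variable {C : Type u} [Category.{v} C] [MonoidalCategory C] [SymmetricCategory C]
  {D : Type u'} [Category.{v'} D] [MonoidalCategory D] [SymmetricCategory D]
  (F : C ⥤ D) [F.Braided] (X : C)

/-- The comparison isomorphism of tensor powers. -/
def kp : ∀ n : ℕ, tp (F.obj X) n ≅ F.obj (tp X n)
  | 0 => Functor.Monoidal.εIso F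
  | n + 1 => whiskerRightIso (kp n) (F.obj X) ≪≫ Functor.Monoidal.μIso F (tp X n) X

lemma kp_succ (n : ℕ) : (kp F X (n + 1)).hom =
    ((kp F X n).hom ▷ F.obj X) ≫ μ F (tp X n) X := rfl

lemma sw_func (W Z : C) :
    sw (F.obj W) (F.obj Z) ≫ μ F W Z ▷ F.obj Z ≫ μ F (W ⊗ Z) Z =
      μ F W Z ▷ F.obj Z ≫ μ F (W ⊗ Z) Z ≫ F.map (sw W Z) := by
  simp only [sw, Category.assoc, Functor.map_comp]
  rw [Functor.LaxMonoidal.associativity_assoc, ← Functor.LaxMonoidal.μ_natural_right_assoc,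
    ← MonoidalCategory.whiskerLeft_comp_assoc, Functor.LaxBraided.braided,
    MonoidalCategory.whiskerLeft_comp_assoc, Functor.LaxMonoidal.associativity_inv]

lemma sw_kp (n : ℕ) : sw (tp (F.obj X) n) (F.obj X) ≫ (kp F X (n + 2)).hom =
    (kp F X (n + 2)).hom ≫ F.map (sw (tp X n) X) := by
  have h1 : (kp F X (n + 2)).hom = ((kp F X n).hom ▷ F.obj X ▷ F.obj X) ≫
      (μ F (tp X n) X ▷ F.obj X) ≫ μ F (tp X n ⊗ X) X := by
    simp [kp_succ]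
  rw [h1, ← reassoc_of% (sw_nat_left (X := F.obj X) (kp F X n).hom), sw_func]
  simp only [Category.assoc]

lemma whisker_kp (n : ℕ) (f : tp X n ⟶ tp X n) (g : tp (F.obj X) n ⟶ tp (F.obj X) n)
    (h : g ≫ (kp F X n).hom = (kp F X n).hom ≫ F.map f) :
    (g ▷ F.obj X) ≫ (kp F X (n + 1)).hom = (kp F X (n + 1)).hom ≫ F.map (f ▷ X) := by
  rw [kp_succ, ← comp_whiskerRight_assoc, h, comp_whiskerRight_assoc, μ_natural_left,
    Category.assoc]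

variable [Preadditive C] [Linear ℚ C] [Preadditive D] [Linear ℚ D] [F.Additive] [F.Linear ℚ]

lemma asym_kp (η : ℚ) (n : ℕ) :
    asym η (F.obj X) n ≫ (kp F X n).hom = (kp F X n).hom ≫ F.map (asym η X n) := by
  induction n with
  | zero => simp [asym_zero]
  | succ n ih =>
    rcases n with - | n
    · simp [asym_one]
    · have h1 := whisker_kp F X (n + 1) _ _ ih
      have h2 : (asym η (F.obj X) (n + 1) ▷ F.obj X ≫ sw (tp (F.obj X) n) (F.obj X) ≫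
          asym η (F.obj X) (n + 1) ▷ F.obj X) ≫ (kp F X (n + 2)).hom = (kp F X (n + 2)).hom ≫
          F.map (asym η X (n + 1) ▷ X ≫ sw (tp X n) X ≫ asym η X (n + 1) ▷ X) := by
        simp only [Category.assoc, Functor.map_comp]
        rw [h1, reassoc_of% (sw_kp F X n), reassoc_of% h1]
      rw [asym_succ, asym_succ, Functor.map_smul, Functor.map_add, Functor.map_smul,
        Linear.smul_comp, Preadditive.add_comp, Linear.smul_comp, h1, h2, Linear.comp_smul,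
        Preadditive.comp_add, Linear.comp_smul]

lemma asym_func {η : ℚ} {X : C} {n : ℕ} (h : asym η X n = 0) : asym η (F.obj X) n = 0 := by
  rw [← cancel_mono (kp F X n).hom, asym_kp, h, Functor.map_zero, comp_zero, zero_comp]

lemma asym_of_func [F.Faithful] {η : ℚ} {X : C} {n : ℕ} (h : asym η (F.obj X) n = 0) :
    asym η X n = 0 := by
  apply F.map_injective
  rw [Functor.map_zero, ← cancel_epi (kp F X n).hom, ← asym_kp, h, zero_comp, comp_zero]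

end

section

variable {D : Type u'} [Category.{v'} D] [MonoidalCategory D] [SymmetricCategory D]
  [RightRigidCategory D]

/-- The trace can be computed with any dual. -/
lemma tr_eq {X Y : D} (h' : 𝟙_ D ⟶ X ⊗ Y) (e' : Y ⊗ X ⟶ 𝟙_ D)
    (hz : h' ▷ X ≫ (α_ X Y X).hom ≫ X ◁ e' = (λ_ X).hom ≫ (ρ_ X).inv) (a : X ⟶ X) :
    tr a = h' ≫ a ▷ Y ≫ (β_ X Y).hom ≫ e' := by
  let ψ : Xᘁ ⟶ Y := (ρ_ _).inv ≫ Xᘁ ◁ h' ≫ (α_ _ _ _).inv ≫ ε_ X Xᘁ ▷ Y ≫ (λ_ _).hom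
  have h1 : η_ X Xᘁ ≫ X ◁ ψ = h' := by
    have h2 : η_ X Xᘁ ▷ X ≫ (α_ X Xᘁ X).hom ≫ X ◁ ε_ X Xᘁ = (λ_ X).hom ≫ (ρ_ X).inv :=
      ExactPairing.evaluation_coevaluation _ _
    calc η_ X Xᘁ ≫ X ◁ ψ = 𝟙 _ ⊗≫ (η_ X Xᘁ ▷ 𝟙_ D ≫ (X ⊗ Xᘁ) ◁ h') ⊗≫ X ◁ (ε_ X Xᘁ ▷ Y) ⊗≫
          𝟙 _ := by simp only [ψ]; monoidal
      _ = 𝟙 _ ⊗≫ (𝟙_ D ◁ h' ≫ η_ X Xᘁ ▷ (X ⊗ Y)) ⊗≫ X ◁ (ε_ X Xᘁ ▷ Y) ⊗≫ 𝟙 _ := by
          rw [whisker_exchange]
      _ = 𝟙 _ ⊗≫ h' ⊗≫ (η_ X Xᘁ ▷ X ≫ (α_ X Xᘁ X).hom ≫ X ◁ ε_ X Xᘁ) ▷ Y ⊗≫ 𝟙 _ := by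
          monoidal
      _ = h' := by rw [h2]; monoidal
  have h3 : ψ ▷ X ≫ e' = ε_ X Xᘁ := by
    calc ψ ▷ X ≫ e' = 𝟙 _ ⊗≫ (Xᘁ : D) ◁ (h' ▷ X) ⊗≫ (ε_ X Xᘁ ▷ (Y ⊗ X) ≫ 𝟙_ D ◁ e') ⊗≫ 𝟙 _ := by
          simp only [ψ]; monoidal
      _ = 𝟙 _ ⊗≫ (Xᘁ : D) ◁ (h' ▷ X) ⊗≫ ((Xᘁ ⊗ X) ◁ e' ≫ ε_ X Xᘁ ▷ 𝟙_ D) ⊗≫ 𝟙 _ := by
          rw [whisker_exchange]
      _ = 𝟙 _ ⊗≫ (Xᘁ : D) ◁ (h' ▷ X ≫ (α_ X Y X).hom ≫ X ◁ e') ⊗≫ ε_ X Xᘁ ▷ 𝟙_ D ⊗≫ 𝟙 _ := by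
          monoidal
      _ = ε_ X Xᘁ := by rw [hz]; monoidal
  have e : tr a = η_ X Xᘁ ≫ a ▷ Xᘁ ≫ (β_ X Xᘁ).hom ≫ ε_ X Xᘁ := rfl
  rw [e, ← h1, ← h3, Category.assoc, whisker_exchange_assoc,
    BraidedCategory.braiding_naturality_right_assoc]

end

end Pool.Agent.Q20.Kf
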