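import Pool.Agent.TH829.Kim.Alg2

/-!
# Kimura idempotents of graded algebras with a trace
-/

set_option autoImplicit false
set_option linter.unusedSectionVars false

open Pool.Agent.TH829.Kim

namespace Pool.Agent.Q20.Kf

variable {R : Type*} [Ring R] [Algebra ℚ R] {tr : R →ₗ[ℚ] ℚ}

/-- A linear map defined on the homogeneous parts. -/
noncomputable def onDeg (A : ℤ → Submodule ℚ R) (hA : DirectSum.IsInternal A) (c : ℤ → ℚ) :
    R →ₗ[ℚ] R :=
  (DirectSum.toModule ℚ ℤ R fun i => c i • (A i).subtype) ∘ₗ
    (LinearEquiv.ofBijective (DirectSum.coeLinearMap A) hA).symm.toLinearMap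

lemma onDeg_mem (A : ℤ → Submodule ℚ R) (hA : DirectSum.IsInternal A) (c : ℤ → ℚ) {i : ℤ} {x : R}
    (hx : x ∈ A i) : onDeg A hA c x = c i • x := by
  have h1 : (LinearEquiv.ofBijective (DirectSum.coeLinearMap A) hA).symm x =
      DirectSum.lof ℚ ℤ (fun i => A i) i ⟨x, hx⟩ := by
    rw [LinearEquiv.symm_apply_eq]
    exact (DirectSum.coeLinearMap_lof A i ⟨x, hx⟩).symm
  rw [onDeg, LinearMap.comp_apply, LinearEquiv.coe_coe, h1, DirectSum.toModule_lof]
  simp

lemma deg_ext {A : ℤ → Submodule ℚ R} (hA : DirectSum.IsInternal A) {L : Type*} [AddCommGroup L]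
    [Module ℚ L] (f g : R →ₗ[ℚ] L) (h : ∀ i, ∀ x ∈ A i, f x = g x) : f = g := by
  ext x
  have hx : x ∈ ⨆ i, A i := by rw [hA.submodule_iSup_eq_top]; trivial
  induction hx using Submodule.iSup_induction' with
  | mem i x hx => exact h i x hx
  | zero => rw [map_zero, map_zero]
  | add x y _ _ hx hy => rw [map_add, map_add, hx, hy]

/-- The derivation which multiplies the part of degree `i` by `i`. -/
lemma onDeg_deriv {A : ℤ → Submodule ℚ R} (hA : DirectSum.IsInternal A)
    (hmul : ∀ i j x y, x ∈ A i → y ∈ A j → x * y ∈ A (i + j)) (x y : R) :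
    onDeg A hA (fun i => (i : ℚ)) (x * y) =
      onDeg A hA (fun i => (i : ℚ)) x * y + x * onDeg A hA (fun i => (i : ℚ)) y := by
  set d := onDeg A hA (fun i => (i : ℚ)) with hd
  have h1 : (LinearMap.mul ℚ R).compr₂ d =
      (LinearMap.mul ℚ R).compl₂ d + (LinearMap.mul ℚ R).comp d := by
    apply deg_ext hA
    intro i x hx
    apply deg_ext hA
    intro j y hy
    simp only [LinearMap.compr₂_apply, LinearMap.add_apply, LinearMap.compl₂_apply,
      LinearMap.mul_apply', LinearMap.comp_apply]
    rw [hd, onDeg_mem A hA _ (hmul i j x y hx hy), onDeg_mem A hA _ hx, onDeg_mem A hA _ hy,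
      smul_mul_assoc, mul_smul_comm, ← add_smul]
    push_cast
    rw [add_comm]
  have h2 := LinearMap.congr_fun (LinearMap.congr_fun h1 x) y
  simp only [LinearMap.compr₂_apply, LinearMap.add_apply, LinearMap.compl₂_apply,
      LinearMap.mul_apply', LinearMap.comp_apply] at h2
  rw [h2, add_comm]

/-- The even idempotent is congruent to an element of degree zero. -/
theorem graded_idem (hsym : ∀ a b, tr (a * b) = tr (b * a)) {A : ℤ → Submodule ℚ R}
    (hA : DirectSum.IsInternal A) (hmul : ∀ i j x y, x ∈ A i → y ∈ A j → x * y ∈ A (i + j))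
    (htr : ∀ i, i ≠ 0 → ∀ x ∈ A i, tr x = 0) {p : R} (hp : p * p = p) {n m : ℕ}
    (hE : Killed tr (-1) p n) (hO : Killed tr 1 (1 - p) m) : ∃ p0 ∈ A 0, InRad tr (p0 - p) := by
  set d := onDeg A hA (fun i => (i : ℚ)) with hd
  set z := onDeg A hA (fun i => if i = 0 then 1 else 0) with hz
  have hz0 : ∀ x, z x ∈ A 0 := by
    intro x
    have hx : x ∈ ⨆ i, A i := by rw [hA.submodule_iSup_eq_top]; trivial
    induction hx using Submodule.iSup_induction' with
    | mem i x hx =>
      rw [hz, onDeg_mem A hA _ hx]
      split_ifs with h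
      · rw [one_smul, ← h]; exact hx
      · rw [zero_smul]; exact zero_mem _
    | zero => rw [map_zero]; exact zero_mem _
    | add x y _ _ hx hy => rw [map_add]; exact add_mem hx hy
  -- the derivative of the idempotent is in the radical
  have hg : (1 - p) * (1 - p) = 1 - p := by
    rw [mul_sub, sub_mul, sub_mul, one_mul, one_mul, mul_one, hp, sub_self, sub_zero]
  have hD : InRad tr (d p) := by
    have e1 : d p = d p * p + p * d p := by
      have := onDeg_deriv hA hmul p p
      rw [hp] at this
      exact this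
    have e2 : p * d p * p = 0 := by
      have h1 : p * d p * p = p * (d p * p + p * d p) * p := by rw [← e1]
      have h2 : p * (d p * p + p * d p) * p = p * d p * p + p * d p * p := by
        rw [mul_add, add_mul, ← mul_assoc, mul_assoc (p * d p) p p, hp, ← mul_assoc p p, hp]
      rw [h2] at h1
      have h3 := h1.symm
      rwa [add_eq_left] at h3
    have e3 : d p = p * d p * (1 - p) + (1 - p) * d p * p := by
      have h1 : p * d p * (1 - p) = p * d p := by rw [mul_sub, mul_one, e2, sub_zero]
      have h2 : (1 - p) * d p * p = d p * p := by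
        rw [sub_mul, one_mul, sub_mul, e2, sub_zero]
      rw [h1, h2, add_comm]
      exact e1
    intro γ
    have h1 : tr (p * d p * (1 - p) * γ) = 0 := by
      have h2 := even_odd hsym hp hg hE hO (d p) γ
      have h3 : p * d p * (1 - p) * ((1 - p) * γ * p) = (p * d p * (1 - p) * γ) * p := by
        simp only [mul_assoc]
        rw [← mul_assoc (1 - p) (1 - p), hg]
      rw [h3, hsym] at h2
      have h4 : p * (p * d p * (1 - p) * γ) = p * d p * (1 - p) * γ := by
        simp only [← mul_assoc, hp]
      rwa [h4] at h2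
    have h1' : tr ((1 - p) * d p * p * γ) = 0 := by
      have h2 := even_odd hsym hp hg hE hO γ (d p)
      rw [hsym] at h2
      have h3 : (1 - p) * d p * p * (p * γ * (1 - p)) = ((1 - p) * d p * p * γ) * (1 - p) := by
        simp only [mul_assoc]
        rw [← mul_assoc p p, hp]
      rw [h3, hsym] at h2
      have h4 : (1 - p) * ((1 - p) * d p * p * γ) = (1 - p) * d p * p * γ := by
        simp only [← mul_assoc, hg]
      rwa [h4] at h2
    rw [e3, add_mul, map_add, h1, h1', add_zero]
  refine ⟨z p, hz0 p, ?_⟩
  intro γ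
  have key : ∀ j, ∀ γ ∈ A j, tr ((z p - p) * γ) = 0 := by
    intro j γ hγ
    have hd' : ∀ x, tr (d x * γ) = -(j : ℚ) * tr (x * γ) := by
      have h1 : (tr ∘ₗ LinearMap.mulRight ℚ γ) ∘ₗ d = -(j : ℚ) • (tr ∘ₗ LinearMap.mulRight ℚ γ) := by
        apply deg_ext hA
        intro i x hx
        simp only [LinearMap.comp_apply, LinearMap.mulRight_apply, LinearMap.smul_apply,
          smul_eq_mul]
        rw [hd, onDeg_mem A hA _ hx, smul_mul_assoc, map_smul, smul_eq_mul]
        by_cases hij : i + j = 0
        · have : (i : ℚ) = -(j : ℚ) := by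
            have : i = -j := by omega
            rw [this]; push_cast; rfl
          rw [this]
        · rw [htr (i + j) hij _ (hmul i j x γ hx hγ), mul_zero, mul_zero]
      intro x
      have h2 := LinearMap.congr_fun h1 x
      simpa only [LinearMap.comp_apply, LinearMap.mulRight_apply, LinearMap.smul_apply,
          smul_eq_mul] using h2
    have hz' : ∀ x, tr (z x * γ) = (if j = 0 then 1 else 0) * tr (x * γ) := by
      have h1 : (tr ∘ₗ LinearMap.mulRight ℚ γ) ∘ₗ z =
          (if j = 0 then (1 : ℚ) else 0) • (tr ∘ₗ LinearMap.mulRight ℚ γ) := by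
        apply deg_ext hA
        intro i x hx
        simp only [LinearMap.comp_apply, LinearMap.mulRight_apply, LinearMap.smul_apply,
          smul_eq_mul]
        rw [hz, onDeg_mem A hA _ hx, smul_mul_assoc, map_smul, smul_eq_mul]
        by_cases hij : i + j = 0
        · have : (i = 0) ↔ (j = 0) := by omega
          simp only [this]
        · rw [htr (i + j) hij _ (hmul i j x γ hx hγ), mul_zero, mul_zero]
      intro x
      have h2 := LinearMap.congr_fun h1 x
      simpa only [LinearMap.comp_apply, LinearMap.mulRight_apply, LinearMap.smul_apply,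
          smul_eq_mul] using h2
    rw [sub_mul, map_sub, hz']
    by_cases hj : j = 0
    · rw [if_pos hj, one_mul, sub_self]
    · have h1 := hD γ
      rw [hd'] at h1
      have h2 : tr (p * γ) = 0 := by
        rcases mul_eq_zero.mp h1 with h3 | h3
        · exfalso
          apply hj
          have : (j : ℚ) = 0 := by linarith
          exact_mod_cast this
        · exact h3
      rw [h2, mul_zero, sub_zero]
  have hγ : γ ∈ ⨆ i, A i := by rw [hA.submodule_iSup_eq_top]; trivial
  induction hγ using Submodule.iSup_induction' with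
  | mem i x hx => exact key i x hx
  | zero => rw [mul_zero, map_zero]
  | add x y _ _ hx hy => rw [mul_add, map_add, hx, hy, add_zero]

end Pool.Agent.Q20.Kf
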