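import Pool.Agent.Q20.Kf.Pure

/-!
# Kimura finiteness descends to tensor factors
-/

set_option autoImplicit false
set_option linter.unusedSectionVars false
set_option linter.unusedSimpArgs false
set_option backward.isDefEq.respectTransparency false
set_option backward.defeqAttrib.useBackward true

open CategoryTheory Limits MonoidalCategory
open Pool.Agent.Y112.SR Pool.Agent.Y112.KD
open Pool.Agent.Y116.MT (tr)
open Pool.Agent.TH829.Kim (InRad Killed exists_lift isNilpotent_of_inRad)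

namespace Pool.Agent.Q20.Kf

universe v u w

open Functor.LaxMonoidal Functor.OplaxMonoidal

section

variable {C : Type u} [Category.{v} C] [Preadditive C] [Linear ℚ C] [MonoidalCategory C]
  [MonoidalPreadditive C] [MonoidalLinear ℚ C] [SymmetricCategory C]

/-- The object `M` is finite-dimensional in the sense of Kimura: it is the direct sum of an object
`E` one of whose exterior powers vanishes and of an object `O` one of whose symmetric powers
vanishes. -/
def IsKimuraFinite (M : C) : Prop :=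
  ∃ (E O : C) (i : E ⟶ M) (r : M ⟶ E) (j : O ⟶ M) (s : M ⟶ O),
    i ≫ r = 𝟙 E ∧ j ≫ s = 𝟙 O ∧ r ≫ i + s ≫ j = 𝟙 M ∧ (∃ n, Kills (-1) E n) ∧ ∃ n, Kills 1 O n

lemma asym_le {η : ℚ} (hη : η * η = 1) {X : C} {n : ℕ} (h : asym η X n = 0) :
    asym η X (n + 1) = 0 := by
  rw [← (absorb hη X n).1, h]
  have : (0 : tp X n ⟶ tp X n) ▷ X = 0 := (tensorRight X).map_zero _ _
  rw [this, zero_comp]

/-- A Kimura finite object is a retract decomposition with bounds. -/
lemma IsKimuraFinite.out {M : C} (h : IsKimuraFinite M) :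
    ∃ (E O : C) (i : E ⟶ M) (r : M ⟶ E) (j : O ⟶ M) (s : M ⟶ O) (n m : ℕ),
      i ≫ r = 𝟙 E ∧ j ≫ s = 𝟙 O ∧ r ≫ i + s ≫ j = 𝟙 M ∧ asym (-1) E (n + 1) = 0 ∧
        asym 1 O (m + 1) = 0 := by
  obtain ⟨E, O, i, r, j, s, h1, h2, h3, ⟨n, hn⟩, ⟨m, hm⟩⟩ := h
  exact ⟨E, O, i, r, j, s, n, m, h1, h2, h3,
    asym_le (by norm_num) ((kills_iff (by norm_num) _ _).mp hn),
    asym_le (by norm_num) ((kills_iff (by norm_num) _ _).mp hm)⟩

variable [RightRigidCategory C] {K : Type w} [Field K] (R : SuperRealisation C K)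

include R in
/-- Endomorphisms in the radical of the trace form of a Kimura finite object are nilpotent. -/
lemma nilp_of_kimura (hU : UnitQ C) {X : C} (h : IsKimuraFinite X) (x : End X)
    (hx : InRad (trq hU X) x) : IsNilpotent x := by
  obtain ⟨E, O, i, r, j, s, n, m, h1, h2, h3, h4, h5⟩ := h.out
  have hsym : ∀ a b : End X, trq hU X (a * b) = trq hU X (b * a) := fun a b => by
    rw [End.mul_def, End.mul_def]
    exact trq_comm' R hU _ _
  let f : End X := r ≫ i
  have hf : f * f = f := by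
    rw [End.mul_def]
    change (r ≫ i) ≫ (r ≫ i) = r ≫ i
    rw [Category.assoc, reassoc_of% h1]
  have e1 : 1 - f = s ≫ j := by
    rw [sub_eq_iff_eq_add']
    exact h3.symm
  exact isNilpotent_of_inRad hsym hf (killed hU (by norm_num) i r n h4 _ rfl)
    (killed hU (by norm_num) j s m h5 _ e1) hx

/-- Endomorphisms with realisation zero are in the radical. -/
lemma inRad_of_map (hU : UnitQ C) {X : C} (x : End X) (hx : R.H.map (x : X ⟶ X) = 0) :
    InRad (trq hU X) x := by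
  have hc := R_charZero R
  intro y
  have h1 := real_tr R hU (X := X) (x * y)
  have h2 : R.H.map (x * y : X ⟶ X) = 0 := by
    have e : (x * y : End X) = (y : X ⟶ X) ≫ (x : X ⟶ X) := rfl
    rw [e, Functor.map_comp, hx, comp_zero]
  have h3 : ((trq hU X (x * y) : ℚ) : K) = 0 := by
    rw [h1, h2, zero_comp, ModuleCat.hom_zero, map_zero]
  exact_mod_cast h3

/-- The sign conjecture holds for Kimura finite objects. -/
lemma cplus_of_kimura {X : C} (h : IsKimuraFinite X) : R.CPlus X := by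
  obtain ⟨E, O, i, r, j, s, n, m, h1, h2, h3, h4, h5⟩ := h.out
  have hE := par_of_asym R (-1) (by norm_num) _ h4
  have hO := par_of_asym R 1 (by norm_num) _ h5
  rw [cplus_iff]
  refine ⟨r ≫ i - s ≫ j, ?_⟩
  have hE' : R.par E = 𝟙 _ := by rw [hE]; push_cast; simp
  have hO' : R.par O = - 𝟙 _ := by rw [hO]; push_cast; simp
  have e1 : R.H.map (r ≫ i) ≫ R.par X = R.H.map (r ≫ i) := by
    rw [R.par_natural, Functor.map_comp, ← Category.assoc, ← R.par_natural, hE', Category.comp_id]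
  have e2 : R.H.map (s ≫ j) ≫ R.par X = - R.H.map (s ≫ j) := by
    rw [R.par_natural, Functor.map_comp, ← Category.assoc, ← R.par_natural, hO',
      Preadditive.comp_neg, Category.comp_id, Preadditive.neg_comp]
  have e3 : R.par X = R.H.map (r ≫ i + s ≫ j) ≫ R.par X := by
    rw [h3, CategoryTheory.Functor.map_id, Category.id_comp]
  rw [e3, Functor.map_add, Preadditive.add_comp, e1, e2, Functor.map_sub, sub_eq_add_neg]

/-- Tensoring an endomorphism with the identity. -/
def wr {M : C} (N : C) (x : End M) : End (M ⊗ N) := (x : M ⟶ M) ▷ N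

/-- Transport of an endomorphism of a retract. -/
def cj {X Y : C} (i : Y ⟶ X) (r : X ⟶ Y) (y : End Y) : End X := r ≫ (y : Y ⟶ Y) ≫ i

lemma wr_pow {M : C} (N : C) (x : End M) (k : ℕ) : wr N x ^ k = wr N (x ^ k) := by
  induction k with
  | zero =>
    rw [pow_zero, pow_zero]
    exact (id_whiskerRight M N).symm
  | succ k ih =>
    rw [pow_succ, pow_succ, ih]
    exact (comp_whiskerRight (x : M ⟶ M) ((x ^ k : End M) : M ⟶ M) N).symm

lemma cj_pow {X Y : C} (i : Y ⟶ X) (r : X ⟶ Y) (hY : i ≫ r = 𝟙 Y) (y : End Y) (k : ℕ) :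
    cj i r y ^ (k + 1) = cj i r (y ^ (k + 1)) := by
  induction k with
  | zero => rw [zero_add, pow_one, pow_one]
  | succ k ih =>
    rw [pow_succ, ih, pow_succ y (k + 1), End.mul_def, End.mul_def]
    simp only [cj, Category.assoc, reassoc_of% hY]

lemma cj_nilp {X Y : C} (i : Y ⟶ X) (r : X ⟶ Y) (hY : i ≫ r = 𝟙 Y) (y : End Y)
    (h : IsNilpotent (cj i r y)) : IsNilpotent y := by
  obtain ⟨k, hk⟩ := h
  refine ⟨k + 1, ?_⟩
  have h1 := cj_pow i r hY y k
  rw [pow_succ, hk, zero_mul] at h1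
  have h5 : i ≫ (cj i r (y ^ (k + 1)) : X ⟶ X) ≫ r = ((y ^ (k + 1) : End Y) : Y ⟶ Y) := by
    simp only [cj, Category.assoc, hY, Category.comp_id, reassoc_of% hY]
  rw [← h1] at h5
  refine h5.symm.trans ?_
  have h6 : i ≫ (0 : X ⟶ X) ≫ r = 0 := by rw [zero_comp, comp_zero]
  exact h6

/-- The trace of a lift of the involution is the total dimension. -/
lemma trq_par_ne (hU : UnitQ C) {N : C} (hN : ¬ IsZero (R.H.obj N)) (g : N ⟶ N)
    (hg : R.H.map g = R.par N) : trq hU N g ≠ 0 := by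
  have hc := R_charZero R
  have h0 := R.finite N
  intro h
  have h1 := real_tr R hU g
  rw [hg, R.par_sq, ModuleCat.hom_id, LinearMap.trace_id, h] at h1
  apply finrank_ne_zero R hN
  have h2 : ((Module.finrank K (R.H.obj N) : ℕ) : K) = 0 := by
    rw [← h1]
    simp
  exact_mod_cast h2

include R in
/-- Numerically trivial endomorphisms of a factor of a Kimura finite object are nilpotent. -/
lemma nilp_factor (hU : UnitQ C) {M N : C} (hN : ¬ IsZero (R.H.obj N)) (hNp : R.CPlus N)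
    (h : IsKimuraFinite (M ⊗ N)) (x : End M) (hx : InRad (trq hU M) x) : IsNilpotent x := by
  have hc := R_charZero R
  have h1 : InRad (trq hU (M ⊗ N)) (wr N x) := by
    intro y
    have e2 : trq hU (M ⊗ N) ((y : M ⊗ N ⟶ M ⊗ N) ≫ (x : M ⟶ M) ▷ N) =
        trq hU M (ptr ((y : M ⊗ N ⟶ M ⊗ N) ≫ (x : M ⟶ M) ▷ N)) := (trq_ptr R hU _).symm
    refine Eq.trans e2 ?_
    rw [ptr_comp_right]
    exact hx _
  obtain ⟨k, hk⟩ := nilp_of_kimura R hU h _ h1
  obtain ⟨g, hg⟩ := (cplus_iff R N).mp hNp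
  refine ⟨k, ?_⟩
  rw [wr_pow] at hk
  have h2 : ptr (((x ^ k : End M) : M ⟶ M) ⊗ₘ g) = (trq hU N g) • ((x ^ k : End M) : M ⟶ M) :=
    ptr_tensor _ _ _ (trq_spec hU _)
  have h3 : ((x ^ k : End M) : M ⟶ M) ⊗ₘ g = 0 := by
    have h4 : ((x ^ k : End M) : M ⟶ M) ▷ N = 0 := hk
    rw [MonoidalCategory.tensorHom_def, h4, zero_comp]
  rw [h3] at h2
  have h5 : ptr (0 : M ⊗ N ⟶ M ⊗ N) = 0 := (ptrL M N).map_zero
  rw [h5] at h2
  exact (smul_eq_zero.1 h2.symm).resolve_left (trq_par_ne R hU hN g hg)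

include R in
/-- If a summand of a Kimura finite object does not see the complement of `P` in the realisation
then it is killed with `P`. -/
lemma kill_step (hU : UnitQ C) {X Y : C} (h : IsKimuraFinite X) (iY : Y ⟶ X) (rY : X ⟶ Y)
    (hY : iY ≫ rY = 𝟙 Y) {P : C} (i : P ⟶ X) (r : X ⟶ P) (e : X ⟶ X) (hre : r ≫ i + e = 𝟙 X)
    (he : R.H.map (iY ≫ e ≫ rY) = 0) {η : ℚ} {n : ℕ} (hP : asym η P n = 0) :
    asym η Y n = 0 := by
  let ν : End Y := iY ≫ e ≫ rY
  have h1 : IsNilpotent ν := by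
    apply cj_nilp iY rY hY
    apply nilp_of_kimura R hU h
    apply inRad_of_map R hU
    have h2 : R.H.map (iY ≫ e ≫ rY) = 0 := he
    change R.H.map (rY ≫ (iY ≫ e ≫ rY) ≫ iY) = 0
    rw [Functor.map_comp, Functor.map_comp _ (iY ≫ e ≫ rY), h2, zero_comp, comp_zero]
  obtain ⟨u, hu⟩ := h1.isUnit_one_sub
  have h3 : ((1 - ν : End Y) : Y ⟶ Y) = (iY ≫ r) ≫ (i ≫ rY) := by
    have h4 : (iY ≫ r) ≫ (i ≫ rY) = iY ≫ (r ≫ i) ≫ rY := by simp only [Category.assoc]
    have h5 : r ≫ i = 𝟙 X - e := by rw [← hre, add_sub_cancel_right]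
    rw [h4, h5, Preadditive.sub_comp, Preadditive.comp_sub, Category.id_comp, hY]
    rfl
  have h6 : (iY ≫ r) ≫ ((i ≫ rY) ≫ ((↑u⁻¹ : End Y) : Y ⟶ Y)) = 𝟙 Y := by
    rw [← Category.assoc, ← h3]
    have h7 : (↑u⁻¹ : End Y) * (1 - ν) = 1 := by rw [← hu, Units.inv_mul]
    exact h7
  exact kills_retract _ _ h6 hP

/-- Summands with a pure realisation of a Kimura finite object are killed. -/
lemma kill_summand (hU : UnitQ C) {X Y : C} (h : IsKimuraFinite X) (iY : Y ⟶ X) (rY : X ⟶ Y)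
    (hY : iY ≫ rY = 𝟙 Y) (d : ℚ) (hd : d = 1 ∨ d = -1) (hp : R.par Y = (d : K) • 𝟙 _) :
    ∃ n, asym (-d) Y n = 0 := by
  have hc := R_charZero R
  obtain ⟨E, O, i, r, j, s, n, m, h1, h2, h3, h4, h5⟩ := h.out
  have hE := par_of_asym R (-1) (by norm_num) _ h4
  have hO := par_of_asym R 1 (by norm_num) _ h5
  have hE' : R.par E = 𝟙 _ := by rw [hE]; push_cast; simp
  have hO' : R.par O = - 𝟙 _ := by rw [hO]; push_cast; simp
  -- morphisms between objects of different parities vanish in the realisation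
  have key : ∀ {A B : C} (f : A ⟶ B), R.par A = 𝟙 _ → R.par B = - 𝟙 _ → R.H.map f = 0 := by
    intro A B f hA hB
    have h6 := R.par_natural f
    rw [hA, hB, Preadditive.comp_neg, Category.comp_id, Category.id_comp] at h6
    have h7 : (2 : K) • R.H.map f = 0 := by
      rw [two_smul]
      nth_rewrite 1 [← h6]
      rw [neg_add_cancel]
    exact (smul_eq_zero.1 h7).resolve_left two_ne_zero
  have key' : ∀ {A B : C} (f : A ⟶ B), R.par A = - 𝟙 _ → R.par B = 𝟙 _ → R.H.map f = 0 := by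
    intro A B f hA hB
    have h6 := R.par_natural f
    rw [hA, hB, Preadditive.neg_comp, Category.comp_id, Category.id_comp] at h6
    have h7 : (2 : K) • R.H.map f = 0 := by
      rw [two_smul]
      nth_rewrite 1 [h6]
      rw [neg_add_cancel]
    exact (smul_eq_zero.1 h7).resolve_left two_ne_zero
  rcases hd with rfl | rfl
  · have hp' : R.par Y = 𝟙 _ := by rw [hp]; push_cast; simp
    refine ⟨n + 1, kill_step R hU h iY rY hY i r (s ≫ j) h3 ?_ h4⟩
    rw [Category.assoc, ← Category.assoc iY s, Functor.map_comp, key (iY ≫ s) hp' hO', zero_comp]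
  · have hp' : R.par Y = - 𝟙 _ := by rw [hp]; push_cast; simp
    refine ⟨m + 1, ?_⟩
    rw [neg_neg]
    refine kill_step R hU h iY rY hY j s (r ≫ i) (by rw [add_comm]; exact h3) ?_ h5
    rw [Category.assoc, ← Category.assoc iY r, Functor.map_comp, key' (iY ≫ r) hp' hE', zero_comp]

/-- The lifts of the parity projectors. -/
lemma exists_summands [IsIdempotentComplete C] {M : C} (hM : R.CPlus M)
    (hnil : ∀ x : End M, R.H.map (x : M ⟶ M) = 0 → IsNilpotent x) :
    ∃ (E O : C) (i : E ⟶ M) (r : M ⟶ E) (j : O ⟶ M) (s : M ⟶ O),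
      i ≫ r = 𝟙 E ∧ j ≫ s = 𝟙 O ∧ r ≫ i + s ≫ j = 𝟙 M ∧ R.par E = ((1 : ℚ) : K) • 𝟙 _ ∧
        R.par O = ((-1 : ℚ) : K) • 𝟙 _ := by
  have hc := R_charZero R
  obtain ⟨g, hg⟩ := (cplus_iff R M).mp hM
  let f : M ⟶ M := (2⁻¹ : ℚ) • (𝟙 M + g)
  have hf : R.H.map f = (2⁻¹ : K) • (𝟙 _ + R.par M) := by
    rw [R_smul, Functor.map_add, hg, CategoryTheory.Functor.map_id]
    push_cast
    rfl
  have h22 : (2 : K)⁻¹ * 2⁻¹ * 2 = 2⁻¹ := by
    rw [mul_assoc, inv_mul_cancel₀ two_ne_zero, mul_one]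
  have hpp : (𝟙 _ + R.par M) ≫ (𝟙 _ + R.par M) = (2 : K) • (𝟙 _ + R.par M) := by
    rw [Preadditive.comp_add, Preadditive.add_comp, Preadditive.add_comp, R.par_sq]
    simp only [Category.comp_id, Category.id_comp]
    module
  have hff : R.H.map f ≫ R.H.map f = R.H.map f := by
    rw [hf, Linear.smul_comp, Linear.comp_smul, hpp, smul_smul, smul_smul, h22]
  have h1 : R.H.map (f ≫ f - f) = 0 := by
    rw [Functor.map_sub, Functor.map_comp, hff, sub_self]
  have hl : ∃ e c : M ⟶ M, e ≫ e = e ∧ e - f = c ≫ (f ≫ f - f) := by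
    let f' : End M := f
    obtain ⟨e, c, he, hec⟩ := exists_lift (e := f') (hnil (f' * f' - f') h1)
    exact ⟨e, c, he, hec⟩
  obtain ⟨e, c, he', hec⟩ := hl
  have h2 : R.H.map e = R.H.map f := by
    rw [← sub_eq_zero, ← Functor.map_sub, hec, Functor.map_comp, h1, comp_zero]
  have he'' : (𝟙 M - e) ≫ (𝟙 M - e) = 𝟙 M - e := by
    rw [Preadditive.comp_sub, Preadditive.sub_comp, Preadditive.sub_comp, he']
    simp
  obtain ⟨E, i, r, hir, hri⟩ := IsIdempotentComplete.idempotents_split M _ he'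
  obtain ⟨O, j, s, hjs, hsj⟩ := IsIdempotentComplete.idempotents_split M _ he''
  refine ⟨E, O, i, r, j, s, hir, hjs, by rw [hri, hsj, add_sub_cancel], ?_, ?_⟩
  · have e1 : i = i ≫ e := by rw [← hri, reassoc_of% hir]
    have e2 : R.H.map i ≫ R.par M = R.H.map i := by
      have e3 : R.H.map e ≫ R.par M = R.H.map e := by
        rw [h2, hf, Linear.smul_comp, Preadditive.add_comp, R.par_sq, Category.id_comp, add_comm]
      rw [e1, Functor.map_comp, Category.assoc, e3]
    have e4 : R.par E = R.par E ≫ R.H.map (i ≫ r) := by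
      rw [hir, CategoryTheory.Functor.map_id, Category.comp_id]
    rw [e4, Functor.map_comp, ← Category.assoc, ← R.par_natural, e2, ← Functor.map_comp, hir,
      CategoryTheory.Functor.map_id]
    push_cast
    rw [one_smul]
  · have e1 : j = j ≫ (𝟙 M - e) := by rw [← hsj, reassoc_of% hjs]
    have e2 : R.H.map j ≫ R.par M = - R.H.map j := by
      have e3 : R.H.map (𝟙 M - e) ≫ R.par M = - R.H.map (𝟙 M - e) := by
        have h23 : (2 : K)⁻¹ * 2 = 1 := inv_mul_cancel₀ two_ne_zero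
        have h4 : (2 : K)⁻¹ • (𝟙 _ + R.par M) = 𝟙 (R.H.obj M) - (2 : K)⁻¹ • (𝟙 _ - R.par M) := by
          rw [eq_sub_iff_add_eq, ← smul_add]
          have h5 : (𝟙 (R.H.obj M) + R.par M) + (𝟙 _ - R.par M) = (2 : K) • 𝟙 _ := by module
          rw [h5, smul_smul, h23, one_smul]
        rw [Functor.map_sub, CategoryTheory.Functor.map_id, h2, hf, h4, sub_sub_cancel,
          Linear.smul_comp, Preadditive.sub_comp, R.par_sq, Category.id_comp, ← smul_neg, neg_sub]
      rw [e1, Functor.map_comp, Category.assoc, e3, Preadditive.comp_neg]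
    have e4 : R.par O = R.par O ≫ R.H.map (j ≫ s) := by
      rw [hjs, CategoryTheory.Functor.map_id, Category.comp_id]
    rw [e4, Functor.map_comp, ← Category.assoc, ← R.par_natural, e2, Preadditive.neg_comp,
      ← Functor.map_comp, hjs, CategoryTheory.Functor.map_id]
    push_cast
    rw [neg_smul, one_smul]

omit [RightRigidCategory C] in
lemma IsKimuraFinite.iso {X Y : C} (h : IsKimuraFinite X) (e : X ≅ Y) : IsKimuraFinite Y := by
  obtain ⟨E, O, i, r, j, s, h1, h2, h3, h4, h5⟩ := h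
  refine ⟨E, O, i ≫ e.hom, e.inv ≫ r, j ≫ e.hom, e.inv ≫ s, by simp [h1], by simp [h2], ?_, h4, h5⟩
  have h6 : (e.inv ≫ r) ≫ i ≫ e.hom + (e.inv ≫ s) ≫ j ≫ e.hom =
      e.inv ≫ (r ≫ i + s ≫ j) ≫ e.hom := by
    simp
  rw [h6, h3, Category.id_comp, e.inv_hom_id]

/-- A pure summand of a factor is killed if the tensor product is Kimura finite. -/
lemma kill_factor (hU : UnitQ C) {M N A B : C} (h : IsKimuraFinite (M ⊗ N))
    (i : A ⟶ M) (r : M ⟶ A) (hir : i ≫ r = 𝟙 A) (j : B ⟶ N) (s : N ⟶ B) (hjs : j ≫ s = 𝟙 B)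
    (a b : ℚ) (ha : a = 1 ∨ a = -1) (hb : b = 1 ∨ b = -1) (hA : R.par A = (a : K) • 𝟙 _)
    (hB : R.par B = (b : K) • 𝟙 _) (hB0 : ¬ IsZero (R.H.obj B)) : ∃ n, Kills (-a) A n := by
  have hc := R_charZero R
  have ha2 : a * a = 1 := by rcases ha with rfl | rfl <;> norm_num
  have hb2 : b * b = 1 := by rcases hb with rfl | rfl <;> norm_num
  have h1 : R.par (A ⊗ B) = ((a * b : ℚ) : K) • 𝟙 _ := by
    have h2 := R.par_tensor A B
    rw [hA, hB] at h2
    have h3 : ((a : K) • 𝟙 (R.H.obj A)) ⊗ₘ ((b : K) • 𝟙 (R.H.obj B)) = ((a * b : ℚ) : K) • 𝟙 _ := by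
      rw [MonoidalCategory.tensorHom_def, MonoidalLinear.smul_whiskerRight,
        MonoidalLinear.whiskerLeft_smul, Linear.smul_comp, Linear.comp_smul, smul_smul,
        id_whiskerRight, MonoidalCategory.whiskerLeft_id, Category.comp_id]
      push_cast
      rfl
    rw [h3, Linear.smul_comp, Category.id_comp] at h2
    have h4 := congrArg (fun z => δ R.H A B ≫ z) h2
    simpa using h4
  have h2 : (i ⊗ₘ j) ≫ (r ⊗ₘ s) = 𝟙 (A ⊗ B) := by
    rw [tensorHom_comp_tensorHom, hir, hjs, id_tensorHom_id]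
  have hab : a * b = 1 ∨ a * b = -1 := by
    rcases ha with rfl | rfl <;> rcases hb with rfl | rfl <;> norm_num
  obtain ⟨n, hn⟩ := kill_summand R hU h (i ⊗ₘ j) (r ⊗ₘ s) h2 (a * b) hab h1
  have ha' : (-a) * (-a) = 1 := by linear_combination ha2
  refine ⟨n, (kills_iff ha' A n).mpr ?_⟩
  refine kill_descent hU (η := -a) (θ := b) ha' hb2 A B n ?_ (F_one_ne R hU b hb2 hB hB0 n)
  rw [neg_mul]
  exact hn

/-- Kimura finiteness descends to a tensor factor. -/
theorem kimura_left (hU : UnitQ C) [IsIdempotentComplete C] {M N : C}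
    (hM : ¬ IsZero (R.H.obj M)) (hN : ¬ IsZero (R.H.obj N)) (h : IsKimuraFinite (M ⊗ N)) :
    IsKimuraFinite M := by
  have hc := R_charZero R
  have hX := cplus_of_kimura R h
  have hM' : R.CPlus M := cplus_of_tensor R hN hX
  have hN' : R.CPlus N := cplus_of_tensor R hM (cplus_braid R hX)
  have h' : IsKimuraFinite (N ⊗ M) := h.iso (β_ M N)
  obtain ⟨E, O, i, r, j, s, h1, h2, h3, hE, hO⟩ := exists_summands R hM'
    (fun x hx => nilp_factor R hU hN hN' h x (inRad_of_map R hU x hx))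
  obtain ⟨E', O', i', r', j', s', h1', h2', h3', hE', hO'⟩ := exists_summands R hN'
    (fun x hx => nilp_factor R hU hM hM' h' x (inRad_of_map R hU x hx))
  have hne : ¬ IsZero (R.H.obj E') ∨ ¬ IsZero (R.H.obj O') := by
    by_contra hcon
    push Not at hcon
    apply hN
    rw [IsZero.iff_id_eq_zero, ← CategoryTheory.Functor.map_id, ← h3', Functor.map_add,
      Functor.map_comp, Functor.map_comp, hcon.1.eq_of_tgt (R.H.map r') 0,
      hcon.2.eq_of_tgt (R.H.map s') 0, zero_comp, zero_comp, add_zero]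
  have hkill : (∃ n, Kills (-1) E n) ∧ ∃ n, Kills 1 O n := by
    rcases hne with h0 | h0
    · refine ⟨kill_factor R hU h i r h1 i' r' h1' 1 1 (by norm_num) (by norm_num) hE hE' h0, ?_⟩
      have := kill_factor R hU h j s h2 i' r' h1' (-1) 1 (by norm_num) (by norm_num) hO hE' h0
      rwa [neg_neg] at this
    · refine ⟨kill_factor R hU h i r h1 j' s' h2' 1 (-1) (by norm_num) (by norm_num) hE hO' h0, ?_⟩
      have := kill_factor R hU h j s h2 j' s' h2' (-1) (-1) (by norm_num) (by norm_num) hO hO' h0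
      rwa [neg_neg] at this
  exact ⟨E, O, i, r, j, s, h1, h2, h3, hkill⟩

/-- Kimura finiteness descends to both tensor factors. -/
theorem kimura_factors (hU : UnitQ C) [IsIdempotentComplete C] {M N : C}
    (hM : ¬ IsZero (R.H.obj M)) (hN : ¬ IsZero (R.H.obj N)) (h : IsKimuraFinite (M ⊗ N)) :
    IsKimuraFinite M ∧ IsKimuraFinite N :=
  ⟨kimura_left R hU hM hN h, kimura_left R hU hN hM (h.iso (β_ M N))⟩

end

end Pool.Agent.Q20.Kf
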