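import Pool.Agent.Q20.Kf.Func
import Pool.Agent.Q20.Kf.GrAlg

/-!
# Orbit categories reflect Kimura finiteness
-/

set_option autoImplicit false
set_option linter.unusedSectionVars false
set_option linter.unusedSimpArgs false
set_option backward.isDefEq.respectTransparency false
set_option backward.defeqAttrib.useBackward true

open CategoryTheory Limits MonoidalCategory
open Pool.Agent.Y112.SR Pool.Agent.Y112.KD
open Pool.Agent.Y116.MT (tr)
open Pool.Agent.TH829.Kim (InRad Killed exists_lift exists_conj isNilpotent_of_inRad)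

namespace Pool.Agent.Q20.Kf

universe v u v' u'

open Functor.LaxMonoidal Functor.OplaxMonoidal

section

variable {D : Type u'} [Category.{v'} D] [MonoidalCategory D] [SymmetricCategory D]
  [RightRigidCategory D]

/-- The trace is symmetric. -/
lemma tr_comm_cat {X Y : D} (a : X ⟶ Y) (b : Y ⟶ X) : tr (a ≫ b) = tr (b ≫ a) := by
  have e1 : tr (a ≫ b) = η_ X Xᘁ ≫ (a ≫ b) ▷ Xᘁ ≫ (β_ X Xᘁ).hom ≫ ε_ X Xᘁ := rfl
  have e2 : tr (b ≫ a) = η_ Y Yᘁ ≫ (b ≫ a) ▷ Yᘁ ≫ (β_ Y Yᘁ).hom ≫ ε_ Y Yᘁ := rfl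
  rw [e1, e2, comp_whiskerRight, comp_whiskerRight]
  simp only [Category.assoc]
  rw [← coevaluation_comp_rightAdjointMate_assoc, whisker_exchange_assoc,
    BraidedCategory.braiding_naturality_right_assoc, rightAdjointMate_comp_evaluation,
    BraidedCategory.braiding_naturality_left_assoc, BraidedCategory.braiding_naturality_left_assoc,
    BraidedCategory.braiding_naturality_left_assoc]

variable [Preadditive D] [Linear ℚ D] [MonoidalPreadditive D] [MonoidalLinear ℚ D]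

lemma trq_symm (hU : UnitQ D) (X : D) (a b : End X) : trq hU X (a * b) = trq hU X (b * a) := by
  apply hU.inj
  rw [← trq_spec, ← trq_spec]
  exact tr_comm_cat (b : X ⟶ X) (a : X ⟶ X)

/-- Endomorphisms in the radical of the trace form of a Kimura finite object are nilpotent. -/
lemma nilp_of_kimura' (hU : UnitQ D) {X : D} (h : IsKimuraFinite X) (x : End X)
    (hx : InRad (trq hU X) x) : IsNilpotent x := by
  obtain ⟨E, O, i, r, j, s, n, m, h1, h2, h3, h4, h5⟩ := h.out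
  let f : End X := r ≫ i
  have hf : f * f = f := by
    rw [End.mul_def]
    change (r ≫ i) ≫ (r ≫ i) = r ≫ i
    rw [Category.assoc, reassoc_of% h1]
  have e1 : 1 - f = s ≫ j := by
    rw [sub_eq_iff_eq_add']
    exact h3.symm
  exact isNilpotent_of_inRad (trq_symm hU X) hf (killed hU (by norm_num) i r n h4 _ rfl)
    (killed hU (by norm_num) j s m h5 _ e1) hx

end

section

variable {C : Type u} [Category.{v} C] [Preadditive C] [Linear ℚ C] [MonoidalCategory C]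
  [MonoidalPreadditive C] [MonoidalLinear ℚ C] [SymmetricCategory C]
  {D : Type u'} [Category.{v'} D] [Preadditive D] [Linear ℚ D] [MonoidalCategory D]
  [MonoidalPreadditive D] [MonoidalLinear ℚ D] [SymmetricCategory D]

/-- A grading by the integers of the morphisms between the images of the objects of `C` under the
monoidal functor `F`: the morphisms of degree zero are the images of the morphisms of `C`,
degrees add under composition, and tensoring with an identity preserves the degree. -/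
structure IsHomGrading (F : C ⥤ D) [F.Monoidal]
    (A : ∀ M N : C, ℤ → Submodule ℚ (F.obj M ⟶ F.obj N)) : Prop where
  internal : ∀ M N, DirectSum.IsInternal (A M N)
  zero : ∀ M N (f : F.obj M ⟶ F.obj N), f ∈ A M N 0 ↔ ∃ g, F.map g = f
  comp : ∀ M N P i j (f : F.obj M ⟶ F.obj N) (g : F.obj N ⟶ F.obj P), f ∈ A M N i →
    g ∈ A N P j → f ≫ g ∈ A M P (i + j)
  whisker : ∀ M N P i (f : F.obj M ⟶ F.obj N), f ∈ A M N i →
    δ F M P ≫ f ▷ F.obj P ≫ μ F N P ∈ A (M ⊗ P) (N ⊗ P) i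

variable {F : C ⥤ D} [F.Braided] {A : ∀ M N : C, ℤ → Submodule ℚ (F.obj M ⟶ F.obj N)}

lemma IsHomGrading.disj (hA : IsHomGrading F A) {M N : C} {i j : ℤ} (hij : i ≠ j)
    (f : F.obj M ⟶ F.obj N) (h1 : f ∈ A M N i) (h2 : f ∈ A M N j) : f = 0 := by
  have h3 := (hA.internal M N).submodule_iSupIndep.pairwiseDisjoint hij
  exact Submodule.disjoint_def.mp h3 f h1 h2

variable [RightRigidCategory C] [RightRigidCategory D]

/-- The trace of a homogeneous endomorphism of non-zero degree is zero. -/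
lemma IsHomGrading.tr_deg [F.Additive] [F.Linear ℚ] (hA : IsHomGrading F A) (hU : UnitQ D) (M : C)
    {i : ℤ} (hi : i ≠ 0) (y : End (F.obj M)) (hy : y ∈ A M M i) : trq hU (F.obj M) y = 0 := by
  let h' : 𝟙_ D ⟶ F.obj M ⊗ F.obj Mᘁ := ε F ≫ F.map (η_ M Mᘁ) ≫ δ F M Mᘁ
  let e' : F.obj Mᘁ ⊗ F.obj M ⟶ 𝟙_ D := μ F Mᘁ M ≫ F.map (ε_ M Mᘁ) ≫ η F
  have hz : h' ▷ F.obj M ≫ (α_ _ _ _).hom ≫ F.obj M ◁ e' = (λ_ _).hom ≫ (ρ_ _).inv := by
    have hz0 : η_ M Mᘁ ▷ M ≫ (α_ M Mᘁ M).hom ≫ M ◁ ε_ M Mᘁ = (λ_ M).hom ≫ (ρ_ M).inv :=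
      ExactPairing.evaluation_coevaluation _ _
    have hz1 := congrArg (fun w => F.map w) hz0
    simp only [Functor.map_comp] at hz1
    have hz2 : F.map (η_ M Mᘁ) ▷ F.obj M ≫ δ F M Mᘁ ▷ F.obj M ≫
        (α_ (F.obj M) (F.obj Mᘁ) (F.obj M)).hom ≫ F.obj M ◁ μ F Mᘁ M ≫
          F.obj M ◁ F.map (ε_ M Mᘁ) =
        μ F (𝟙_ C) M ≫ F.map (λ_ M).hom ≫ F.map (ρ_ M).inv ≫ δ F M (𝟙_ C) := by
      have hz3 : μ F (M ⊗ Mᘁ) M ≫ F.map (α_ M Mᘁ M).hom = δ F M Mᘁ ▷ F.obj M ≫
          (α_ (F.obj M) (F.obj Mᘁ) (F.obj M)).hom ≫ F.obj M ◁ μ F Mᘁ M ≫ μ F M (Mᘁ ⊗ M) := by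
        rw [← Functor.LaxMonoidal.associativity, ← comp_whiskerRight_assoc]
        simp
      calc _ = F.map (η_ M Mᘁ) ▷ F.obj M ≫ (δ F M Mᘁ ▷ F.obj M ≫
          (α_ (F.obj M) (F.obj Mᘁ) (F.obj M)).hom ≫ F.obj M ◁ μ F Mᘁ M ≫ μ F M (Mᘁ ⊗ M)) ≫
            δ F M (Mᘁ ⊗ M) ≫ F.obj M ◁ F.map (ε_ M Mᘁ) := by
              simp only [Category.assoc]
              rw [Functor.Monoidal.μ_δ_assoc]
        _ = μ F (𝟙_ C) M ≫ (F.map (η_ M Mᘁ ▷ M) ≫ F.map (α_ M Mᘁ M).hom ≫
            F.map (M ◁ ε_ M Mᘁ)) ≫ δ F M (𝟙_ C) := by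
          rw [← hz3, Functor.OplaxMonoidal.δ_natural_right, Category.assoc,
            Functor.LaxMonoidal.μ_natural_left_assoc]
          simp only [Category.assoc]
        _ = _ := by rw [hz1, Category.assoc]
    simp only [h', e', comp_whiskerRight, MonoidalCategory.whiskerLeft_comp, Category.assoc]
    rw [reassoc_of% hz2]
    simp
  have h1 := tr_eq h' e' hz (y : F.obj M ⟶ F.obj M)
  let z : F.obj (𝟙_ C) ⟶ F.obj (𝟙_ C) := F.map (η_ M Mᘁ) ≫ (δ F M Mᘁ ≫ (y : F.obj M ⟶ F.obj M) ▷ F.obj Mᘁ ≫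
    μ F M Mᘁ) ≫ F.map ((β_ M Mᘁ).hom ≫ ε_ M Mᘁ)
  have h2 : z ∈ A (𝟙_ C) (𝟙_ C) i := by
    have h3 := hA.comp _ _ _ i 0 _ _ (hA.whisker M M Mᘁ i y hy)
      ((hA.zero _ _ _).mpr ⟨(β_ M Mᘁ).hom ≫ ε_ M Mᘁ, rfl⟩)
    have h4 := hA.comp _ _ _ 0 (i + 0) _ _ ((hA.zero _ _ _).mpr ⟨η_ M Mᘁ, rfl⟩) h3
    rwa [zero_add, add_zero] at h4
  have h3 : tr (y : F.obj M ⟶ F.obj M) = ε F ≫ z ≫ η F := by
    rw [h1]
    simp only [h', e', z, Category.assoc, Functor.map_comp, Functor.LaxBraided.braided_assoc]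
  have h4 := trq_spec hU y
  have h5 : tr (y : F.obj M ⟶ F.obj M) = trq hU (F.obj M) y • 𝟙 _ := h4
  rw [h3] at h5
  have h6 : z = trq hU (F.obj M) y • 𝟙 _ := by
    have h7 : η F ≫ (ε F ≫ z ≫ η F) ≫ ε F = z := by simp
    rw [← h7, h5]
    simp
  have h7 : z ∈ A (𝟙_ C) (𝟙_ C) 0 := (hA.zero _ _ _).mpr
    ⟨trq hU (F.obj M) y • 𝟙 _, by rw [h6, Functor.map_smul, CategoryTheory.Functor.map_id]⟩
  have h8 := hA.disj hi z h2 h7
  rw [h8] at h3
  apply hU.inj
  rw [← h4, zero_smul]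
  refine h3.trans ?_
  rw [zero_comp, comp_zero]

/-- A functor with graded morphisms reflects Kimura finiteness. -/
theorem IsHomGrading.reflects [F.Additive] [F.Linear ℚ] [F.Faithful] [IsIdempotentComplete C]
    (hA : IsHomGrading F A) (hU : UnitQ D) (M : C) (h : IsKimuraFinite (F.obj M)) :
    IsKimuraFinite M := by
  obtain ⟨E, O, i, r, j, s, n, m, h1, h2, h3, h4, h5⟩ := h.out
  have hnil := nilp_of_kimura' hU h
  have hsym := trq_symm hU (F.obj M)
  -- the idempotent of the even part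
  let p : End (F.obj M) := r ≫ i
  have hp : p * p = p := by
    rw [End.mul_def]
    change (r ≫ i) ≫ (r ≫ i) = r ≫ i
    rw [Category.assoc, reassoc_of% h1]
  have e1 : 1 - p = s ≫ j := by
    rw [sub_eq_iff_eq_add']
    exact h3.symm
  have hE := killed hU (by norm_num) i r n h4 p rfl
  have hO := killed hU (by norm_num) j s m h5 (1 - p) e1
  -- a congruent element of degree zero
  have hmul : ∀ (a b : ℤ) (x y : End (F.obj M)), x ∈ A M M a → y ∈ A M M b →
      x * y ∈ A M M (a + b) := by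
    intro a b x y hx hy
    rw [End.mul_def, add_comm]
    exact hA.comp M M M b a y x hy hx
  obtain ⟨p0, hp0, hrad⟩ := graded_idem hsym (A := A M M) (hA.internal M M) hmul
    (fun a ha x hx => hA.tr_deg hU M ha x hx) hp hE hO
  obtain ⟨x0, hx0⟩ := (hA.zero M M p0).mp hp0
  let x : End M := x0
  let φ : End M → End (F.obj M) := fun a => F.map (a : M ⟶ M)
  have hmapm : ∀ a b : End M, φ (a * b) = φ a * φ b := by
    intro a b
    change F.map ((b : M ⟶ M) ≫ (a : M ⟶ M)) = F.map (b : M ⟶ M) ≫ F.map (a : M ⟶ M)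
    rw [Functor.map_comp]
  have hmapp : ∀ (a : End M) (k : ℕ), φ (a ^ k) = φ a ^ k := by
    intro a k
    induction k with
    | zero => exact F.map_id M
    | succ k ih =>
      rw [pow_succ, pow_succ, hmapm, ih]
  have hmaps : ∀ a b : End M, φ (a - b) = φ a - φ b := fun a b => F.map_sub
  have hφx : φ x = p0 := hx0
  have hrad2 : InRad (trq hU (F.obj M)) (p0 * p0 - p0) := by
    have e2 : p0 * p0 - p0 = (p0 - p) * p0 + p * (p0 - p) - (p0 - p) := by
      have : (p0 - p) * p0 + p * (p0 - p) - (p0 - p) = p0 * p0 - p * p - (p0 - p) := by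
        noncomm_ring
      rw [this, hp]
      abel
    rw [e2]
    exact ((hrad.mul_right p0).add (hrad.mul_left hsym p)).sub hrad
  have hxn : IsNilpotent (x * x - x) := by
    obtain ⟨k, hk⟩ := hnil _ hrad2
    refine ⟨k, ?_⟩
    apply F.map_injective
    have h6 : φ ((x * x - x) ^ k) = 0 := by
      rw [hmapp, hmaps, hmapm, hφx]
      exact hk
    exact h6.trans (F.map_zero M M).symm
  obtain ⟨e, c, he, hec⟩ := exists_lift hxn
  have hf : φ e * φ e = φ e := by rw [← hmapm, he]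
  have hfr : InRad (trq hU (F.obj M)) (φ e - p) := by
    have e2 : φ e - p0 = (p0 * p0 - p0) * φ c := by
      rw [← hφx, ← hmaps, hec, hmapm, hmaps, hmapm]
    have e3 : φ e - p = (φ e - p0) + (p0 - p) := by abel
    rw [e3, e2]
    exact (hrad2.mul_right _).add hrad
  obtain ⟨u, v, huv, hvu, hconj⟩ := exists_conj hsym hf hp hnil hfr
  have hconj' : 1 - φ e = u * (1 - p) * v := by
    rw [hconj, mul_sub, mul_one, sub_mul, huv]
  -- the summands
  have he' : ((1 - e : End M) : M ⟶ M) ≫ ((1 - e : End M) : M ⟶ M) = ((1 - e : End M) : M ⟶ M) := by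
    change (1 - e) * (1 - e) = 1 - e
    rw [mul_sub, sub_mul, sub_mul, he]
    simp
  obtain ⟨Ep, ip, rp, hir, hri⟩ := IsIdempotentComplete.idempotents_split M (e : M ⟶ M) he
  obtain ⟨Op, jp, sp, hjs, hsj⟩ := IsIdempotentComplete.idempotents_split M _ he'
  -- comparison of the summands
  have key : ∀ {G : D} {Q : C} {η : ℚ} {k : ℕ} (a : G ⟶ F.obj M) (b : F.obj M ⟶ G)
      (a' : Q ⟶ M) (b' : M ⟶ Q) (w : End (F.obj M)) (w' : End M) (_ : w = b ≫ a)
      (_ : (w' : M ⟶ M) = b' ≫ a') (_ : a' ≫ b' = 𝟙 Q)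
      (_ : φ w' = u * w * v), asym η G k = 0 → asym η Q k = 0 := by
    intro G Q η k a b a' b' w w' hw hw' hab hcw hk
    apply asym_of_func (F := F)
    refine kills_retract (F.map a' ≫ (v : F.obj M ⟶ F.obj M) ≫ b)
      (a ≫ (u : F.obj M ⟶ F.obj M) ≫ F.map b') ?_ hk
    have e4 : (v : F.obj M ⟶ F.obj M) ≫ b ≫ a ≫ (u : F.obj M ⟶ F.obj M) = F.map (b' ≫ a') := by
      have e5 : ((u * w * v : End (F.obj M)) : F.obj M ⟶ F.obj M) =
          (v : F.obj M ⟶ F.obj M) ≫ (w : F.obj M ⟶ F.obj M) ≫ (u : F.obj M ⟶ F.obj M) := rfl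
      have e6 : F.map (b' ≫ a') = ((u * w * v : End (F.obj M)) : F.obj M ⟶ F.obj M) := by
        rw [← hcw, ← hw']
      rw [e6, e5, hw, Category.assoc]
    calc _ = F.map a' ≫ ((v : F.obj M ⟶ F.obj M) ≫ b ≫ a ≫ (u : F.obj M ⟶ F.obj M)) ≫
          F.map b' := by simp only [Category.assoc]
      _ = 𝟙 _ := by
        rw [e4, ← Functor.map_comp, ← Functor.map_comp, Category.assoc, reassoc_of% hab, hab,
          CategoryTheory.Functor.map_id]
  have e1' : φ (1 - e) = 1 - φ e := by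
    rw [hmaps]
    congr 1
    exact F.map_id M
  refine ⟨Ep, Op, ip, rp, jp, sp, hir, hjs, ?_, ⟨n + 1, (kills_iff (by norm_num) _ _).mpr ?_⟩,
    ⟨m + 1, (kills_iff (by norm_num) _ _).mpr ?_⟩⟩
  · rw [hri, hsj]
    exact add_sub_cancel (e : End M) 1
  · exact key i r ip rp p e rfl hri.symm hir hconj h4
  · exact key j s jp sp (1 - p) (1 - e) e1 hsj.symm hjs (e1'.trans hconj') h5

omit [RightRigidCategory C] [RightRigidCategory D] in
/-- Symmetric monoidal functors preserve Kimura finiteness. -/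
theorem IsKimuraFinite.map [F.Additive] [F.Linear ℚ] {M : C} (h : IsKimuraFinite M) :
    IsKimuraFinite (F.obj M) := by
  obtain ⟨E, O, i, r, j, s, h1, h2, h3, ⟨n, hn⟩, ⟨m, hm⟩⟩ := h
  refine ⟨F.obj E, F.obj O, F.map i, F.map r, F.map j, F.map s, ?_, ?_, ?_,
    ⟨n, (kills_iff (by norm_num) _ _).mpr (asym_func F ((kills_iff (by norm_num) _ _).mp hn))⟩,
    ⟨m, (kills_iff (by norm_num) _ _).mpr (asym_func F ((kills_iff (by norm_num) _ _).mp hm))⟩⟩
  · rw [← Functor.map_comp, h1, CategoryTheory.Functor.map_id]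
  · rw [← Functor.map_comp, h2, CategoryTheory.Functor.map_id]
  · rw [← Functor.map_comp, ← Functor.map_comp, ← Functor.map_add, h3,
      CategoryTheory.Functor.map_id]

end

end Pool.Agent.Q20.Kf
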