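import Pool.Agent.Y112.KD.Real

/-!
# Objects killed by an exterior or a symmetric power have a pure realisation
-/

set_option autoImplicit false
set_option linter.unusedSectionVars false
set_option linter.unusedSimpArgs false
set_option backward.isDefEq.respectTransparency false
set_option backward.defeqAttrib.useBackward true

open CategoryTheory Limits MonoidalCategory
open Pool.Agent.Y112.SR Pool.Agent.Y112.KD

namespace Pool.Agent.Q20.Kf

universe v u w

open Functor.LaxMonoidal Functor.OplaxMonoidal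

section

variable {C : Type u} [Category.{v} C] [Preadditive C] [MonoidalCategory C]
  [SymmetricCategory C] {K : Type w} [Field K] (R : SuperRealisation C K)

/-- The tensor powers of a vector of the realisation. -/
noncomputable def vec {X : C} (v : 𝟙_ (ModuleCat.{w} K) ⟶ R.H.obj X) :
    ∀ n : ℕ, 𝟙_ (ModuleCat.{w} K) ⟶ R.H.obj (tp X n)
  | 0 => ε R.H
  | n + 1 => (λ_ (𝟙_ (ModuleCat.{w} K))).inv ≫ (vec v n ⊗ₘ v) ≫ μ R.H (tp X n) X

/-- The tensor powers of a covector of the realisation. -/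
noncomputable def cov {X : C} (f : R.H.obj X ⟶ 𝟙_ (ModuleCat.{w} K)) :
    ∀ n : ℕ, R.H.obj (tp X n) ⟶ 𝟙_ (ModuleCat.{w} K)
  | 0 => η R.H
  | n + 1 => δ R.H (tp X n) X ≫ (cov f n ⊗ₘ f) ≫ (λ_ (𝟙_ (ModuleCat.{w} K))).hom

lemma vec_cov {X : C} (v : 𝟙_ (ModuleCat.{w} K) ⟶ R.H.obj X)
    (f : R.H.obj X ⟶ 𝟙_ (ModuleCat.{w} K)) (h : v ≫ f = 𝟙 _) (n : ℕ) :
    vec R v n ≫ cov R f n = 𝟙 _ := by
  induction n with
  | zero => simp [vec, cov]
  | succ n ih =>
    simp only [vec, cov, Category.assoc, Functor.Monoidal.μ_δ_assoc]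
    rw [tensorHom_comp_tensorHom_assoc, ih, h]
    simp

lemma vec_two (h2 : (2 : K) ≠ 0) {X : C} (v : 𝟙_ (ModuleCat.{w} K) ⟶ R.H.obj X) (d : K)
    (hd : d * d = 1) (hv : v ≫ R.par X = d • v) :
    (v ⊗ₘ v) ≫ μ R.H X X ≫ R.H.map (β_ X X).hom = d • ((v ⊗ₘ v) ≫ μ R.H X X) := by
  have h3 : (2 : K) • ((v ⊗ₘ v) ≫ μ R.H X X ≫ R.H.map (β_ X X).hom) =
      (v ⊗ₘ v) ≫ (𝟙 _ + R.par X ▷ R.H.obj X + R.H.obj X ◁ R.par X - (R.par X ⊗ₘ R.par X)) ≫
      (β_ (R.H.obj X) (R.H.obj X)).hom ≫ μ R.H X X := by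
    rw [← Linear.comp_smul, R.symm]
  have e1 : (v ⊗ₘ v) ≫ R.par X ▷ R.H.obj X = d • (v ⊗ₘ v) := by
    rw [← tensorHom_id, tensorHom_comp_tensorHom, hv, Category.comp_id,
      MonoidalCategory.tensorHom_def, MonoidalLinear.smul_whiskerRight, Linear.smul_comp,
      ← MonoidalCategory.tensorHom_def]
  have e2 : (v ⊗ₘ v) ≫ R.H.obj X ◁ R.par X = d • (v ⊗ₘ v) := by
    rw [← id_tensorHom, tensorHom_comp_tensorHom, hv, Category.comp_id,
      MonoidalCategory.tensorHom_def, MonoidalLinear.whiskerLeft_smul, Linear.comp_smul,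
      ← MonoidalCategory.tensorHom_def]
  have e3 : (v ⊗ₘ v) ≫ (R.par X ⊗ₘ R.par X) = v ⊗ₘ v := by
    rw [MonoidalCategory.tensorHom_def (R.par X), ← Category.assoc, e1, Linear.smul_comp, e2,
      smul_smul, hd, one_smul]
  have e4 : (v ⊗ₘ v) ≫ (𝟙 _ + R.par X ▷ R.H.obj X + R.H.obj X ◁ R.par X -
      (R.par X ⊗ₘ R.par X)) = ((2 : K) * d) • (v ⊗ₘ v) := by
    rw [Preadditive.comp_sub, Preadditive.comp_add, Preadditive.comp_add, e1, e2, e3,
      Category.comp_id]
    module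
  have e5 : (v ⊗ₘ v) ≫ (β_ (R.H.obj X) (R.H.obj X)).hom ≫ μ R.H X X = (v ⊗ₘ v) ≫ μ R.H X X := by
    rw [BraidedCategory.braiding_naturality_assoc]
    have h4 : (β_ (𝟙_ (ModuleCat.{w} K)) (𝟙_ (ModuleCat.{w} K))).hom = 𝟙 _ := by
      simp [← unitors_equal]
    rw [h4, Category.id_comp]
  rw [reassoc_of% e4, Linear.smul_comp, e5, mul_smul] at h3
  have h5 := congrArg (fun z => (2 : K)⁻¹ • z) h3
  simpa only [smul_smul, inv_mul_cancel_left₀ h2, inv_mul_cancel₀ h2, one_smul] using h5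

lemma vec_sw (h2 : (2 : K) ≠ 0) {X : C} (v : 𝟙_ (ModuleCat.{w} K) ⟶ R.H.obj X) (d : K)
    (hd : d * d = 1) (hv : v ≫ R.par X = d • v) (n : ℕ) :
    vec R v (n + 2) ≫ R.H.map (sw (tp X n) X) = d • vec R v (n + 2) := by
  have h1 := Functor.LaxMonoidal.associativity (F := R.H) (tp X n) X X
  have h3 := vec_two R h2 v d hd hv
  have e0 : vec R v (n + 2) ≫ R.H.map (α_ (tp X n) X X).hom =
      (λ_ _).inv ≫ ((λ_ _).inv ▷ _) ≫ (α_ _ _ _).hom ≫ (vec R v n ⊗ₘ ((v ⊗ₘ v) ≫ μ R.H X X)) ≫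
        μ R.H (tp X n) (X ⊗ X) := by
    have e1 : vec R v (n + 2) = (λ_ _).inv ≫ ((λ_ _).inv ▷ _) ≫ ((vec R v n ⊗ₘ v) ⊗ₘ v) ≫
        (μ R.H (tp X n) X ▷ R.H.obj X) ≫ μ R.H (tp X n ⊗ X) X := by
      simp only [vec, MonoidalCategory.tensorHom_def, comp_whiskerRight, Category.assoc,
        MonoidalCategory.whiskerLeft_comp]
      simp only [whisker_exchange_assoc, whisker_exchange]
    have e2 : (vec R v n ⊗ₘ ((v ⊗ₘ v) ≫ μ R.H X X)) = (vec R v n ⊗ₘ (v ⊗ₘ v)) ≫
        (R.H.obj (tp X n) ◁ μ R.H X X) := by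
      rw [← id_tensorHom, tensorHom_comp_tensorHom, Category.comp_id]
    rw [e1, e2]
    simp only [Category.assoc]
    rw [h1, associator_naturality_assoc]
  have e3 : vec R v (n + 2) ≫ R.H.map (α_ (tp X n) X X).hom ≫
      R.H.map (tp X n ◁ (β_ X X).hom) = d • (vec R v (n + 2) ≫
        R.H.map (α_ (tp X n) X X).hom) := by
    rw [← Category.assoc, e0]
    simp only [Category.assoc]
    rw [← μ_natural_right]
    have e4 : (vec R v n ⊗ₘ ((v ⊗ₘ v) ≫ μ R.H X X)) ≫
        (R.H.obj (tp X n) ◁ R.H.map (β_ X X).hom) = d • (vec R v n ⊗ₘ ((v ⊗ₘ v) ≫ μ R.H X X)) := by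
      rw [← id_tensorHom, tensorHom_comp_tensorHom, Category.comp_id, Category.assoc, h3,
        MonoidalCategory.tensorHom_def, MonoidalLinear.whiskerLeft_smul, Linear.comp_smul,
        ← MonoidalCategory.tensorHom_def]
    rw [reassoc_of% e4]
    simp only [Linear.smul_comp, Linear.comp_smul]
  rw [sw, Functor.map_comp, Functor.map_comp, ← Category.assoc (R.H.map (α_ (tp X n) X X).hom),
    ← Category.assoc, e3, Linear.smul_comp, Category.assoc, ← Functor.map_comp, Iso.hom_inv_id,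
    CategoryTheory.Functor.map_id, Category.comp_id]

end

section

variable {C : Type u} [Category.{v} C] [Preadditive C] [Linear ℚ C] [MonoidalCategory C]
  [MonoidalPreadditive C] [MonoidalLinear ℚ C] [SymmetricCategory C] {K : Type w} [Field K]
  (R : SuperRealisation C K)

lemma vec_asym {X : C} (v : 𝟙_ (ModuleCat.{w} K) ⟶ R.H.obj X) (d : ℚ)
    (hd : d * d = 1) (hv : v ≫ R.par X = (d : K) • v) (n : ℕ) :
    vec R v n ≫ R.H.map (asym d X n) = vec R v n := by
  have hc := R_charZero R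
  have hd' : (d : K) * d = 1 := by exact_mod_cast hd
  induction n with
  | zero => simp [asym_zero]
  | succ n ih =>
    rcases n with - | n
    · simp [asym_one]
    · have h1 : vec R v (n + 2) ≫ R.H.map (asym d X (n + 1) ▷ X) = vec R v (n + 2) := by
        have e1 : vec R v (n + 2) = (λ_ (𝟙_ (ModuleCat.{w} K))).inv ≫ (vec R v (n + 1) ⊗ₘ v) ≫
          μ R.H (tp X (n + 1)) X := rfl
        rw [e1]
        simp only [Category.assoc]
        rw [← μ_natural_left, ← tensorHom_id, tensorHom_comp_tensorHom_assoc, ih,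
          Category.comp_id]
      have h2 := vec_sw R two_ne_zero v (d : K) hd' hv n
      have hn : (((n + 1 : ℕ) : K) + 1) ≠ 0 := by
        have := Nat.cast_add_one_ne_zero (R := K) (n + 1)
        exact_mod_cast this
      rw [asym_succ, R_smul, Functor.map_add, R_smul, Functor.map_comp, Functor.map_comp,
        Linear.comp_smul, Preadditive.comp_add, Linear.comp_smul, h1, reassoc_of% h1,
        reassoc_of% h2, Linear.smul_comp, h1, smul_smul]
      push_cast
      have e2 : (d : K) * ((n : K) + 1) * d = (n : K) + 1 := by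
        linear_combination ((n : K) + 1) * hd'
      rw [e2]
      have e3 : vec R v (n + 2) + ((n : K) + 1) • vec R v (n + 2) =
          ((n : K) + 1 + 1) • vec R v (n + 2) := by module
      rw [e3, smul_smul]
      have hn' : ((n : K) + 1 + 1) ≠ 0 := by exact_mod_cast hn
      rw [inv_mul_cancel₀ hn', one_smul]

/-- A vector of parity `d` in the realisation of an object killed by `asym d` vanishes. -/
lemma vec_eq_zero {X : C} (v : 𝟙_ (ModuleCat.{w} K) ⟶ R.H.obj X) (d : ℚ)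
    (hd : d * d = 1) (hv : v ≫ R.par X = (d : K) • v) (n : ℕ) (h : asym d X n = 0) : v = 0 := by
  by_contra hne
  have h1 : v.hom (1 : K) ≠ 0 := by
    intro h0
    apply hne
    apply ModuleCat.hom_ext
    apply LinearMap.ext_ring
    exact h0
  obtain ⟨f, hf⟩ : ∃ f : R.H.obj X →ₗ[K] K, f (v.hom (1 : K)) = 1 := by
    have h2 : ∃ f : Module.Dual K (R.H.obj X), f (v.hom (1 : K)) ≠ 0 := by
      by_contra hall
      push Not at hall
      exact h1 ((Module.forall_dual_apply_eq_zero_iff K _).mp hall)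
    obtain ⟨f, hf⟩ := h2
    exact ⟨(f (v.hom (1 : K)))⁻¹ • f, by
      rw [LinearMap.smul_apply, smul_eq_mul, inv_mul_cancel₀ hf]⟩
  have h2 : v ≫ (ModuleCat.ofHom f : R.H.obj X ⟶ 𝟙_ (ModuleCat.{w} K)) = 𝟙 _ := by
    apply ModuleCat.hom_ext
    apply LinearMap.ext_ring
    exact hf
  have h3 := vec_cov R v _ h2 n
  rw [← vec_asym R v d hd hv n, h, Functor.map_zero, comp_zero, zero_comp] at h3
  have h4 := LinearMap.congr_fun (congrArg ModuleCat.Hom.hom h3) (1 : K)
  exact zero_ne_one (α := K) h4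

/-- The realisation of an object killed by `asym d` is purely of parity `-d`. -/
theorem par_of_asym {X : C} (d : ℚ) (hd : d * d = 1) (n : ℕ) (h : asym d X n = 0) :
    R.par X = ((-d : ℚ) : K) • 𝟙 _ := by
  have hc := R_charZero R
  have hd' : (d : K) * d = 1 := by exact_mod_cast hd
  have key : 𝟙 _ + (d : K) • R.par X = 0 := by
    apply ModuleCat.hom_ext
    apply LinearMap.ext
    intro x
    let u : 𝟙_ (ModuleCat.{w} K) ⟶ R.H.obj X := ModuleCat.ofHom (LinearMap.toSpanSingleton K _ x)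
    have h1 : (u ≫ (𝟙 _ + (d : K) • R.par X)) ≫ R.par X =
        (d : K) • (u ≫ (𝟙 _ + (d : K) • R.par X)) := by
      rw [Category.assoc, Preadditive.add_comp, Category.id_comp, Linear.smul_comp, R.par_sq,
        ← Linear.comp_smul, smul_add, smul_smul, hd', one_smul, add_comm]
    have h2 := vec_eq_zero R _ d hd h1 n h
    have h4 := LinearMap.congr_fun (congrArg ModuleCat.Hom.hom h2) (1 : K)
    have h5 : (LinearMap.toSpanSingleton K (R.H.obj X) x) (1 : K) = x := by
      rw [LinearMap.toSpanSingleton_apply, one_smul]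
    have h6 : (u ≫ (𝟙 _ + (d : K) • R.par X)).hom (1 : K) =
        (𝟙 _ + (d : K) • R.par X : R.H.obj X ⟶ R.H.obj X).hom
          ((LinearMap.toSpanSingleton K (R.H.obj X) x) (1 : K)) := rfl
    rw [h6, h5] at h4
    exact h4
  have h5 : (d : K) • R.par X = -𝟙 _ := by
    rw [eq_neg_iff_add_eq_zero, add_comm]
    exact key
  have h6 := congrArg (fun z => (d : K) • z) h5
  simp only [smul_smul, hd', one_smul] at h6
  rw [h6]
  push_cast
  simp

end

end Pool.Agent.Q20.Kf
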